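import Pool.Agent.H853.RG.Def

/-!
# Characteristic polynomials on the base change of a space of endomorphisms
-/

set_option autoImplicit false
set_option linter.unusedSectionVars false

namespace Pool.Agent.H853.RG

open Module Polynomial TensorProduct Pool.Agent.Y114.RM Pool.Agent.Y809.RM.BC

theorem charpoly_of {K : Type} [Field K] {E : Type} [AddCommGroup E] [Module K E]
    [FiniteDimensional K E] (L : Submodule K E) (T : End K E) (h : ∀ X ∈ L, T X ∈ L) {ι : Type}
    [Fintype ι] [DecidableEq ι] (b : Basis ι K L) (A : Matrix ι ι K)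
    (hA : ∀ l, T (b l : E) = ∑ i, A i l • (b i : E)) : chOn L T h = A.charpoly := by
  rw [chOn, ← LinearMap.charpoly_toMatrix (T.restrict h) b]
  congr 1
  ext i l
  have h1 : T.restrict h (b l) = ∑ i, A i l • b i := by
    apply Subtype.ext
    rw [LinearMap.coe_restrict_apply, hA, Submodule.coe_sum]
    rfl
  rw [LinearMap.toMatrix_apply, h1, Basis.repr_sum_self]

/-- The multiplicity of a root is the dimension of the generalized eigenspace. -/
theorem finrank_gen {K : Type} [Field K] {E : Type} [AddCommGroup E] [Module K E]
    [FiniteDimensional K E] (L : Submodule K E) (T : End K E) (h : ∀ X ∈ L, T X ∈ L) (c : K) :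
    finrank K (L ⊓ T.maxGenEigenspace c : Submodule K E) = (chOn L T h).rootMultiplicity c := by
  have h1 := LinearMap.finrank_maxGenEigenspace_eq (T.restrict h) c
  rw [chOn, ← h1]
  have h2 : Module.End.maxGenEigenspace (T.restrict h) c = (T.maxGenEigenspace c).comap L.subtype := by
    ext x
    simp only [Submodule.mem_comap, Module.End.mem_maxGenEigenspace, Submodule.subtype_apply]
    refine exists_congr fun n => ?_
    have h3 : ∀ (n : ℕ) (x : L), (((T.restrict h - c • (1 : End K L)) ^ n) x : E) =
        ((T - c • (1 : End K E)) ^ n) (x : E) := by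
      intro n
      induction n with
      | zero => intro x; rfl
      | succ n ih =>
        intro x
        rw [pow_succ, pow_succ, Module.End.mul_apply, Module.End.mul_apply, ih]
        rfl
    rw [← h3, Submodule.coe_eq_zero]
  rw [h2]
  have h4 : (L ⊓ T.maxGenEigenspace c : Submodule K E) =
      ((T.maxGenEigenspace c).comap L.subtype).map L.subtype := by
    rw [Submodule.map_comap_subtype]
  rw [h4]
  exact Submodule.finrank_map_subtype_eq _ _

variable {k : Type} [Field k] {C : Type} [Field C] [Algebra k C] {V : Type} [AddCommGroup V]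
  [Module k V] [FiniteDimensional k V]

variable (C) in
theorem exists_basis (G : Submodule k (End k V)) {ι : Type} [Fintype ι] (e : Basis ι k G) :
    ∃ e' : Basis ι C (bcS C G), ∀ i, (e' i : End C (C ⊗[k] V)) = (e i : End k V).baseChange C :=
  abs_basis (M := End C (C ⊗[k] V)) (fun X : End k V => X.baseChange C)
      (fun π : C →ₗ[k] k => pM π) pM_add pM_smul_bc bc_add bc_smul G e (bcS C G) rfl

/-- The characteristic polynomial of the base change of an operator on `G`. -/
theorem charpoly_bc (G : Submodule k (End k V)) (F : End k (End k V)) (h : ∀ X ∈ G, F X ∈ G)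
    (F' : End C (End C (C ⊗[k] V))) (hF : ∀ X : End k V, F' (X.baseChange C) = (F X).baseChange C)
    (h' : ∀ X ∈ bcS C G, F' X ∈ bcS C G) :
    chOn (K := C) (E := End C (C ⊗[k] V)) (bcS C G) F' h' = (chOn G F h).map (algebraMap k C) := by
  obtain ⟨e', he'⟩ := exists_basis C G (finBasis k G)
  have key : ∀ l, F' (e' l : End C (C ⊗[k] V)) =
      ∑ i, (algebraMap k C).mapMatrix (LinearMap.toMatrix (finBasis k G) (finBasis k G)
        (F.restrict h)) i l • (e' i : End C (C ⊗[k] V)) := by
    intro l
    rw [he', hF]
    have h4 := congrArg (Subtype.val)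
      ((finBasis k G).sum_repr (F.restrict h (finBasis k G l)))
    rw [LinearMap.coe_restrict_apply, Submodule.coe_sum] at h4
    rw [← h4, bc_sum]
    refine Finset.sum_congr rfl fun i _ => ?_
    rw [Submodule.coe_smul, bc_smul, he', RingHom.mapMatrix_apply,
      Matrix.map_apply, LinearMap.toMatrix_apply]
  rw [charpoly_of _ _ h' e' _ key, chOn, ← LinearMap.charpoly_toMatrix (F.restrict h) (finBasis k G),
    RingHom.mapMatrix_apply, Matrix.charpoly_map]

/-- A polynomial divides all characteristic polynomials on the base change, if it is a power of `T`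
and divides those over `k`. -/
theorem pow_dvd_of_forall [Infinite k] {ι : Type} [Fintype ι] [DecidableEq ι] {m : Type} [Fintype m]
    (A : m → Matrix ι ι k) (r : ℕ)
    (h : ∀ x : m → k, (X : k[X]) ^ r ∣ (∑ l, x l • A l).charpoly) (y : m → C) :
    (X : C[X]) ^ r ∣ (∑ l, y l • (A l).map (algebraMap k C)).charpoly := by
  classical
  let U : Matrix ι ι (MvPolynomial m k) := ∑ l, (MvPolynomial.X l : MvPolynomial m k) •
    (A l).map (MvPolynomial.C : k →+* MvPolynomial m k)
  have h1 : ∀ (S : Type) [CommRing S] [Algebra k S] (z : m → S),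
      U.charpoly.map (MvPolynomial.aeval z : MvPolynomial m k →ₐ[k] S).toRingHom =
        (∑ l, z l • (A l).map (algebraMap k S)).charpoly := by
    intro S _ _ z
    rw [← Matrix.charpoly_map]
    congr 1
    ext i j
    simp [U, Matrix.sum_apply, Matrix.map_apply, Matrix.smul_apply]
  have h2 : ∀ d < r, U.charpoly.coeff d = 0 := by
    intro d hd
    apply MvPolynomial.funext
    intro x
    have h3 := h1 k x
    have h4 := congrArg (fun P => P.coeff d) h3
    simp only [coeff_map] at h4
    have h6 := (X_pow_dvd_iff.1 (h x)) d hd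
    have h7 : (∑ l, x l • (A l).map (algebraMap k k)) = ∑ l, x l • A l := by
      ext i j
      simp [Matrix.sum_apply, Matrix.map_apply, Matrix.smul_apply]
    rw [h7] at h4
    rw [map_zero]
    exact h4.trans h6
  rw [X_pow_dvd_iff]
  intro d hd
  rw [← h1 C y, coeff_map, h2 d hd, map_zero]

end Pool.Agent.H853.RG
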