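import Pool.Agent.H853.RG.Grp
import Pool.Agent.H853.OP.Tan

/-!
# The conjugation by elements close to one
-/

set_option autoImplicit false
set_option linter.unusedSectionVars false

namespace Pool.Agent.H853.RG

open Module Polynomial TensorProduct Filter Topology Pool.Agent.TH118.SG Pool.Agent.Y114.RM
  Pool.Agent.Y114.TF Pool.Agent.H853.SR Pool.Agent.NH34.BD Pool.Agent.H853.OP

section mat

variable {p : ℕ} [Fact p.Prime] {m : Type} [Fintype m] [DecidableEq m]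

theorem tendsto_inv_one {A B : ℕ → Matrix m m ℚ_[p]} (hA : Tendsto A atTop (𝓝 1))
    (h : ∀ k, A k * B k = 1) : Tendsto B atTop (𝓝 1) := by
  have h1 : ∀ k, B k = (A k).det⁻¹ • (A k).adjugate := by
    intro k
    rw [← Matrix.inv_eq_right_inv (h k), Matrix.inv_def, Ring.inverse_eq_inv']
  have h2 : Tendsto (fun k => (A k).det⁻¹ • (A k).adjugate) atTop
      (𝓝 ((1 : Matrix m m ℚ_[p]).det⁻¹ • (1 : Matrix m m ℚ_[p]).adjugate)) := by
    refine Tendsto.smul ?_ ?_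
    · refine Tendsto.inv₀ ?_ (by rw [Matrix.det_one]; exact one_ne_zero)
      exact ((continuous_id.matrix_det).tendsto (1 : Matrix m m ℚ_[p])).comp hA
    · exact ((continuous_id.matrix_adjugate).tendsto (1 : Matrix m m ℚ_[p])).comp hA
  rw [Matrix.det_one, inv_one, one_smul, Matrix.adjugate_one] at h2
  simpa only [← h1] using h2

theorem tendsto_core {Y g' : ℕ → Matrix m m ℚ_[p]} {x : Matrix m m ℚ_[p]} {t : ℕ → ℚ_[p]}
    (hY : Tendsto Y atTop (𝓝 x)) (ht : Tendsto t atTop (𝓝 0))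
    (hg : ∀ k, (1 + t k • Y k) * g' k = 1) (c : Matrix m m ℚ_[p] →ₗ[ℚ_[p]] ℚ_[p])
    (b : Matrix m m ℚ_[p]) :
    Tendsto (fun k => c ((Y k * b - b * Y k) * g' k)) atTop (𝓝 (c (x * b - b * x))) := by
  have h1 : Tendsto (fun k => 1 + t k • Y k) atTop (𝓝 1) := by
    have h2 := (tendsto_const_nhds (x := (1 : Matrix m m ℚ_[p])) (f := atTop (α := ℕ))).add
      (ht.smul hY)
    rwa [zero_smul, add_zero] at h2
  have h2 := tendsto_inv_one h1 hg
  have h3 : Tendsto (fun k => (Y k * b - b * Y k) * g' k) atTop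
      (𝓝 ((x * b - b * x) * 1)) :=
    ((hY.mul_const b).sub (hY.const_mul b)).mul h2
  rw [mul_one] at h3
  have hc : Continuous c := c.continuous_of_finiteDimensional
  exact (hc.tendsto _).comp h3

end mat

theorem core_eq {R : Type} [Ring R] {K : Type} [Field K] [Algebra K R] (A Ai b : R) (t : K)
    (h : A * Ai = 1) : ((t⁻¹ • (A - 1)) * b - b * (t⁻¹ • (A - 1))) * Ai =
      t⁻¹ • (A * (b * Ai) - b) := by
  rw [smul_mul_assoc, mul_smul_comm, ← smul_sub, smul_mul_assoc]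
  congr 1
  calc ((A - 1) * b - b * (A - 1)) * Ai = A * (b * Ai) - b * (A * Ai) := by noncomm_ring
    _ = A * (b * Ai) - b := by rw [h, mul_one]

section rep

variable {Γ : Type} [Group Γ] {ι : Type} [Fintype ι] [DecidableEq ι] {n : ι → ℕ} {p : ℕ}
  [Fact p.Prime] (ρ : ∀ i, Representation ℚ_[p] Γ (Fin (n i) → ℚ_[p]))

/-- The standard basis of the direct sum. -/
noncomputable def stdB (n : ι → ℕ) (p : ℕ) [Fact p.Prime] :
    Basis (Σ i, Fin (n i)) ℚ_[p] (∀ i, Fin (n i) → ℚ_[p]) :=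
  Pi.basis fun i => Pi.basisFun ℚ_[p] (Fin (n i))

/-- The matrix of an endomorphism of the direct sum. -/
noncomputable def matOf (n : ι → ℕ) (p : ℕ) [Fact p.Prime] :
    End ℚ_[p] (∀ i, Fin (n i) → ℚ_[p]) ≃ₐ[ℚ_[p]]
      Matrix (Σ i, Fin (n i)) (Σ i, Fin (n i)) ℚ_[p] :=
  LinearMap.toMatrixAlgEquiv (stdB n p)

theorem matOf_apply (Y : End ℚ_[p] (∀ i, Fin (n i) → ℚ_[p])) (i j : ι) (a : Fin (n i))
    (b : Fin (n j)) : matOf n p Y ⟨i, a⟩ ⟨j, b⟩ = Y (Pi.single j (Pi.single b 1)) i a := by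
  rw [matOf, LinearMap.toMatrixAlgEquiv_apply, stdB, Pi.basis_apply, Pi.basisFun_apply,
    Pi.basis_repr, Pi.basisFun_repr]

theorem matOf_rep (γ : Γ) (i j : ι) (a : Fin (n i)) (b : Fin (n j)) :
    matOf n p (sumRep ρ γ) ⟨i, a⟩ ⟨j, b⟩ =
      if h : j = i then LinearMap.toMatrix' (ρ i γ) a (h ▸ b) else 0 := by
  rw [matOf_apply]
  change ρ i γ ((Pi.single j (Pi.single b 1) : ∀ i, Fin (n i) → ℚ_[p]) i) a = _
  by_cases h : j = i
  · subst h
    rw [dif_pos rfl, Pi.single_eq_same, LinearMap.toMatrix'_apply]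
  · rw [dif_neg h, Pi.single_eq_of_ne (Ne.symm h), map_zero, Pi.zero_apply]

theorem matOf_parts {X : End ℚ_[p] (∀ i, Fin (n i) → ℚ_[p])}
    (hX : ∀ x i, X x i = X (Pi.single i (x i)) i) (i j : ι) (a : Fin (n i)) (b : Fin (n j)) :
    matOf n p X ⟨i, a⟩ ⟨j, b⟩ = if h : j = i then block X i a (h ▸ b) else 0 := by
  rw [matOf_apply]
  by_cases h : j = i
  · subst h
    rw [dif_pos rfl]
    rfl
  · rw [dif_neg h, hX, Pi.single_eq_of_ne (Ne.symm h), Pi.single_zero, map_zero]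
    rfl

/-- The functional which gives the `i`-th coordinate on `G`. -/
theorem exists_coord {G : Submodule ℚ_[p] (End ℚ_[p] (∀ i, Fin (n i) → ℚ_[p]))} {d : ℕ}
    (e : Basis (Fin d) ℚ_[p] G) (i : Fin d) :
    ∃ c : End ℚ_[p] (∀ i, Fin (n i) → ℚ_[p]) →ₗ[ℚ_[p]] ℚ_[p], ∀ y : G, c y = e.repr y i := by
  obtain ⟨c, hc⟩ := LinearMap.exists_extend (e.coord i)
  exact ⟨c, fun y => LinearMap.congr_fun hc y⟩

/-- **Conjugations by elements close to one.** -/
theorem near_ad {G : Submodule ℚ_[p] (End ℚ_[p] (∀ i, Fin (n i) → ℚ_[p]))}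
    (hparts : ∀ X ∈ G, ∀ x i, X x i = X (Pi.single i (x i)) i) (hG : IsLie G) {d : ℕ}
    (e : Basis (Fin d) ℚ_[p] G) {x : End ℚ_[p] (∀ i, Fin (n i) → ℚ_[p])} (hx : x ∈ G) {ε : ℝ}
    (hε : 0 < ε) : ∃ ε' > 0, ∀ (γ : Γ) (t : ℚ_[p]), t ≠ 0 → ‖t‖ < ε' →
      (∀ i a b, ‖t⁻¹ * (LinearMap.toMatrix' (ρ i γ) - 1) a b - block x i a b‖ < ε') →
      ∀ hγ : (∀ X ∈ G, AdE (sumRep ρ γ) (sumRep ρ γ⁻¹) X ∈ G), ∀ i j,
        ‖(t⁻¹ • (LinearMap.toMatrix e e
          ((AdE (sumRep ρ γ) (sumRep ρ γ⁻¹)).restrict hγ) - 1)) i j -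
          LinearMap.toMatrix e e ((adE x).restrict (fun Y hY => hG x hx Y hY)) i j‖ < ε := by
  classical
  by_contra hcon
  push Not at hcon
  have h1 : ∀ k : ℕ, ∃ (γ : Γ) (t : ℚ_[p]), t ≠ 0 ∧ ‖t‖ < 1 / ((k : ℝ) + 1) ∧
      (∀ i a b, ‖t⁻¹ * (LinearMap.toMatrix' (ρ i γ) - 1) a b - block x i a b‖ <
        1 / ((k : ℝ) + 1)) ∧ ∃ hγ : (∀ X ∈ G, AdE (sumRep ρ γ) (sumRep ρ γ⁻¹) X ∈ G), ∃ i j,
        ε ≤ ‖(t⁻¹ • (LinearMap.toMatrix e e
          ((AdE (sumRep ρ γ) (sumRep ρ γ⁻¹)).restrict hγ) - 1)) i j -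
          LinearMap.toMatrix e e ((adE x).restrict (fun Y hY => hG x hx Y hY)) i j‖ := fun k =>
    hcon (1 / ((k : ℝ) + 1)) (by positivity)
  choose γ t ht0 htk hblk hγ hbad using h1
  have hlim : Tendsto (fun k : ℕ => 1 / ((k : ℝ) + 1)) atTop (𝓝 0) :=
    tendsto_one_div_add_atTop_nhds_zero_nat
  have htlim : Tendsto t atTop (𝓝 0) := by
    rw [tendsto_zero_iff_norm_tendsto_zero]
    exact squeeze_zero (fun k => norm_nonneg _) (fun k => (htk k).le) hlim
  -- the matrices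
  let Y : ℕ → Matrix (Σ i, Fin (n i)) (Σ i, Fin (n i)) ℚ_[p] := fun k =>
    (t k)⁻¹ • (matOf n p (sumRep ρ (γ k)) - 1)
  have hYlim : Tendsto Y atTop (𝓝 (matOf n p x)) := by
    refine tendsto_pi_nhds.2 ?_
    rintro ⟨i, a⟩
    refine tendsto_pi_nhds.2 ?_
    rintro ⟨j, b⟩
    rw [matOf_parts (hparts x hx)]
    have h2 : ∀ k, Y k ⟨i, a⟩ ⟨j, b⟩ = if h : j = i then
        (t k)⁻¹ * (LinearMap.toMatrix' (ρ i (γ k)) - 1) a (h ▸ b) else 0 := by
      intro k
      change (t k)⁻¹ • (matOf n p (sumRep ρ (γ k)) ⟨i, a⟩ ⟨j, b⟩ -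
        (1 : Matrix (Σ i, Fin (n i)) (Σ i, Fin (n i)) ℚ_[p]) ⟨i, a⟩ ⟨j, b⟩) = _
      rw [matOf_rep]
      by_cases h : j = i
      · subst h
        rw [dif_pos rfl, dif_pos rfl, Matrix.sub_apply, smul_eq_mul]
        congr 2
        by_cases hab : a = b
        · subst hab
          rw [Matrix.one_apply_eq, Matrix.one_apply_eq]
        · rw [Matrix.one_apply_ne hab, Matrix.one_apply_ne (fun h => hab (by
            rw [Sigma.mk.injEq] at h
            exact eq_of_heq h.2))]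
      · rw [dif_neg h, dif_neg h, Matrix.one_apply_ne (fun h' => h (by
          rw [Sigma.mk.injEq] at h'
          exact h'.1.symm)), sub_zero, smul_zero]
    simp only [h2]
    by_cases h : j = i
    · subst h
      simp only [dif_pos rfl]
      rw [tendsto_iff_norm_sub_tendsto_zero]
      exact squeeze_zero (fun k => norm_nonneg _) (fun k => (hblk k j a b).le) hlim
    · simp only [dif_neg h]
      exact tendsto_const_nhds
  have hgg : ∀ k, (1 + t k • Y k) * matOf n p (sumRep ρ (γ k)⁻¹) = 1 := by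
    intro k
    have h2 : 1 + t k • Y k = matOf n p (sumRep ρ (γ k)) := by
      change 1 + t k • ((t k)⁻¹ • (matOf n p (sumRep ρ (γ k)) - 1)) = _
      rw [smul_smul, mul_inv_cancel₀ (ht0 k), one_smul]
      abel
    rw [h2, ← map_mul, ← map_mul, mul_inv_cancel, map_one, map_one]
  -- the entries
  have hent : ∀ i j, Tendsto (fun k => (((t k)⁻¹ • (LinearMap.toMatrix e e
      ((AdE (sumRep ρ (γ k)) (sumRep ρ (γ k)⁻¹)).restrict (hγ k)) - 1)) i j : ℚ_[p])) atTop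
      (𝓝 (LinearMap.toMatrix e e ((adE x).restrict (fun Y hY => hG x hx Y hY)) i j)) := by
    intro i j
    obtain ⟨c, hc⟩ := exists_coord e i
    have h2 := tendsto_core hYlim htlim hgg (c ∘ₗ (matOf n p).symm.toLinearMap)
      (matOf n p (e j : End ℚ_[p] (∀ i, Fin (n i) → ℚ_[p])))
    have h3 : (c ∘ₗ (matOf n p).symm.toLinearMap) (matOf n p x * matOf n p (e j) -
        matOf n p (e j) * matOf n p x) =
        LinearMap.toMatrix e e ((adE x).restrict (fun Y hY => hG x hx Y hY)) i j := by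
      rw [← map_mul, ← map_mul, ← map_sub, LinearMap.toMatrix_apply, ← hc]
      change c ((matOf n p).symm (matOf n p _)) = _
      rw [AlgEquiv.symm_apply_apply]
      rfl
    rw [h3] at h2
    refine h2.congr fun k => ?_
    have h5 : matOf n p (sumRep ρ (γ k)) * matOf n p (sumRep ρ (γ k)⁻¹) = 1 := by
      rw [← map_mul, ← map_mul, mul_inv_cancel, map_one, map_one]
    have h6 : (Y k * matOf n p (e j) - matOf n p (e j) * Y k) * matOf n p (sumRep ρ (γ k)⁻¹) =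
        matOf n p ((t k)⁻¹ • (AdE (sumRep ρ (γ k)) (sumRep ρ (γ k)⁻¹) (e j) -
          (e j : End ℚ_[p] (∀ i, Fin (n i) → ℚ_[p])))) := by
      rw [core_eq _ _ _ (t k) h5, map_smul, map_sub, AdE_apply, map_mul, map_mul]
    rw [h6, Matrix.smul_apply, Matrix.sub_apply, LinearMap.toMatrix_apply, ← hc]
    have h4 : (1 : Matrix (Fin d) (Fin d) ℚ_[p]) i j =
        c (e j : End ℚ_[p] (∀ i, Fin (n i) → ℚ_[p])) := by
      rw [hc, e.repr_self, Finsupp.single_apply, Matrix.one_apply]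
      by_cases hij : i = j
      · rw [if_pos hij, if_pos hij.symm]
      · rw [if_neg hij, if_neg (Ne.symm hij)]
    rw [h4, ← map_sub, ← map_smul]
    change c ((matOf n p).symm (matOf n p _)) = _
    rw [AlgEquiv.symm_apply_apply]
    rfl
  have hev : ∀ᶠ k in atTop, ∀ i j, ‖((t k)⁻¹ • (LinearMap.toMatrix e e
      ((AdE (sumRep ρ (γ k)) (sumRep ρ (γ k)⁻¹)).restrict (hγ k)) - 1)) i j -
      LinearMap.toMatrix e e ((adE x).restrict (fun Y hY => hG x hx Y hY)) i j‖ < ε := by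
    refine eventually_all.2 fun i => eventually_all.2 fun j => ?_
    have h2 := (tendsto_iff_norm_sub_tendsto_zero.1 (hent i j))
    exact h2.eventually_lt_const hε
  obtain ⟨k, hk⟩ := hev.exists
  obtain ⟨i, j, hij⟩ := hbad k
  exact absurd (hk i j) (not_lt.2 hij)

end rep

end Pool.Agent.H853.RG
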