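import Pool.Agent.H853.SR.Add
import Pool.Graph.R_pool_sql_team_seeded_3dad9d7b.NH34.BD.Core

/-!
# The root spaces of a Lie algebra with nondegenerate trace form are one-dimensional
-/

set_option autoImplicit false
set_option linter.unusedSectionVars false

namespace Pool.Agent.H853.RG

open Module Pool.Agent.Y114.RM Pool.Agent.Y212.RM Pool.Agent.NH34.BD

variable {W : Type} [AddCommGroup W] [Module ℂ W] [FiniteDimensional ℂ W]
  {G t : Submodule ℂ (End ℂ W)}

/-- Elements of `G` which commute with the torus and are orthogonal to it are zero. -/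
theorem eq_zero_of_orth (T : Tor G t) {z : End ℂ W} (hz : z ∈ G)
    (hc : ∀ a ∈ t, a * z = z * a) (h : ∀ a ∈ t, LinearMap.trace ℂ W (z * a) = 0) : z = 0 := by
  apply T.nd z hz
  refine wt_induction t T.diag T.comm G (fun a ha X hX => T.lie a (T.le ha) X hX)
    (P := fun Y => LinearMap.trace ℂ W (z * Y) = 0) ?_ ?_ ?_
  · show LinearMap.trace ℂ W (z * 0) = 0
    rw [mul_zero, map_zero]
  · intro X Y _ _ hX hY
    show LinearMap.trace ℂ W (z * (X + Y)) = 0
    have hX' : LinearMap.trace ℂ W (z * X) = 0 := hX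
    have hY' : LinearMap.trace ℂ W (z * Y) = 0 := hY
    rw [mul_add, map_add, hX', hY', add_zero]
  · intro ψ X hX hψ
    show LinearMap.trace ℂ W (z * X) = 0
    by_cases h1 : ∃ a : t, ψ a ≠ 0
    · obtain ⟨a, ha⟩ := h1
      have h2 : (a : End ℂ W) * z - z * a = (0 : ℂ) • z := by
        rw [hc a a.2, sub_self, zero_smul]
      exact trace_wt h2 (hψ a) (by rwa [zero_add])
    · push Not at h1
      refine h X (T.cen X hX fun a ha => ?_)
      have h2 := hψ ⟨a, ha⟩
      rw [h1, zero_smul] at h2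
      exact sub_eq_zero.1 h2

/-- **Root spaces are one-dimensional.** -/
theorem root_simple (T : Tor G t) {χ : t → ℂ} {x y : End ℂ W} (hx : x ∈ G) (hy : y ∈ G)
    (hwx : ∀ a : t, (a : End ℂ W) * x - x * a = χ a • x)
    (hwy : ∀ a : t, (a : End ℂ W) * y - y * a = χ a • y) {a0 : t} (ha0 : χ a0 ≠ 0)
    (hx0 : x ≠ 0) : ∃ c : ℂ, y = c • x := by
  obtain ⟨f, hf, hfw, htr, h, hht, hh0, r1, r2, r3⟩ := T.exists_triple hx hwx hx0 ha0
  set c : ℂ := LinearMap.trace ℂ W (y * f) / LinearMap.trace ℂ W (x * f) with hcdef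
  refine ⟨c, ?_⟩
  set y' : End ℂ W := y - c • x with hy'
  have hy'G : y' ∈ G := G.sub_mem hy (G.smul_mem c hx)
  have hwy' : ∀ a : t, (a : End ℂ W) * y' - y' * a = χ a • y' := by
    intro a
    have h1 : (a : End ℂ W) * y' - y' * a =
        ((a : End ℂ W) * y - y * a) - c • ((a : End ℂ W) * x - x * a) := by
      rw [hy', mul_sub, sub_mul, mul_smul_comm, smul_mul_assoc, smul_sub]
      abel
    rw [h1, hwy, hwx, hy', smul_sub, smul_comm c (χ a) x]
  have htr' : LinearMap.trace ℂ W (y' * f) = 0 := by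
    rw [hy', sub_mul, map_sub, smul_mul_assoc, map_smul, smul_eq_mul, hcdef,
      div_mul_cancel₀ _ htr, sub_self]
  -- the bracket of `f` and `y'`
  have hz : f * y' - y' * f = 0 := by
    refine eq_zero_of_orth T (T.lie f hf y' hy'G) (fun a ha => ?_) fun a ha => ?_
    · have h1 := hwy' ⟨a, ha⟩
      have h2 := hfw ⟨a, ha⟩
      change a * y' - y' * a = χ ⟨a, ha⟩ • y' at h1
      change a * f - f * a = (-χ ⟨a, ha⟩) • f at h2
      rw [← sub_eq_zero]
      calc a * (f * y' - y' * f) - (f * y' - y' * f) * a =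
          (a * f - f * a) * y' + f * (a * y' - y' * a) - (a * y' - y' * a) * f -
            y' * (a * f - f * a) := by noncomm_ring
        _ = 0 := by
          rw [h1, h2, smul_mul_assoc, smul_mul_assoc, mul_smul_comm, mul_smul_comm, neg_smul,
            neg_smul]
          abel
    · have h2 := hfw ⟨a, ha⟩
      change a * f - f * a = (-χ ⟨a, ha⟩) • f at h2
      -- tr((f y' - y' f) a) = tr(y' (a f - f a))
      have h3 : LinearMap.trace ℂ W ((f * y' - y' * f) * a) =
          LinearMap.trace ℂ W (y' * (a * f - f * a)) := by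
        have e1 : LinearMap.trace ℂ W (f * y' * a) = LinearMap.trace ℂ W (y' * (a * f)) := by
          rw [mul_assoc, LinearMap.trace_mul_comm ℂ f, mul_assoc]
        rw [sub_mul (f * y') (y' * f) a, mul_sub y' (a * f) (f * a), map_sub, map_sub, e1,
          mul_assoc y' f a]
      rw [h3, h2, mul_smul_comm, map_smul, htr', smul_zero]
  by_contra hne
  have hy0 : y' ≠ 0 := by
    intro h0
    apply hne
    rw [hy', sub_eq_zero] at h0
    exact h0
  have hχ : χ ⟨h, hht⟩ = 2 := by
    have h1 := hwx ⟨h, hht⟩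
    change h * x - x * h = _ at h1
    rw [r2] at h1
    have h2 : ((2 : ℂ) - χ ⟨h, hht⟩) • x = 0 := by
      rw [sub_smul, ← h1, ofNat_smul_eq_nsmul, sub_self]
    have h3 := (smul_eq_zero.1 h2).resolve_right hx0
    exact (sub_eq_zero.1 h3).symm
  have q1 : adE f * adE x - adE x * adE f = adE (-h) := by
    apply adE_rel
    rw [← r1]
    abel
  have q2 : adE (-h) * adE f - adE f * adE (-h) = 2 • adE f := by
    rw [← adE_nsmul]
    apply adE_rel
    have : (-h) * f - f * (-h) = -(h * f - f * h) := by noncomm_ring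
    rw [this, r3, neg_neg]
  have q3 : adE (-h) * adE x - adE x * adE (-h) = -(2 • adE x) := by
    rw [← adE_nsmul, ← adE_neg]
    apply adE_rel
    have : (-h) * x - x * (-h) = -(h * x - x * h) := by noncomm_ring
    rw [this, r2]
  have q4 : adE f y' = 0 := by rw [adE_apply, hz]
  have q5 : adE (-h) y' = (-2 : ℂ) • y' := by
    rw [adE_apply]
    have h1 := hwy' ⟨h, hht⟩
    change h * y' - y' * h = _ at h1
    have : (-h) * y' - y' * (-h) = -(h * y' - y' * h) := by noncomm_ring
    rw [this, h1, hχ, neg_smul]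
  obtain ⟨n, hn⟩ := nat_of_killed q1 q2 q3 hy0 q4 q5
  have h6 : ((n + 2 : ℕ) : ℂ) = 0 := by
    push_cast
    rw [← hn]
    ring
  exact absurd (Nat.cast_eq_zero.1 h6) (by omega)

end Pool.Agent.H853.RG
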