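import Pool.Agent.H853.RG.Reg
import Pool.Agent.H853.RG.Root
import Mathlib.GroupTheory.CosetCover

/-!
# Strongly regular elements exist
-/

set_option autoImplicit false
set_option linter.unusedSectionVars false

namespace Pool.Agent.H853.RG

open Module Polynomial TensorProduct Pool.Agent.Y114.RM Pool.Agent.Y212.RM Pool.Agent.Y785.RM
  Pool.Agent.H853.SR Pool.Agent.NH34.BD Pool.Agent.Y809.RM.BC

variable {k : Type} [Field k] [CharZero k] [Algebra k ℂ] {V : Type} [AddCommGroup V] [Module k V]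
  [FiniteDimensional k V] {G : Submodule k (End k V)}

/-- The generalized centralizer of a regular element, after base change, is a maximal torus. -/
theorem tor_of_min (h : Inputs) (h2 : Inputs2) (hG : IsLie G) (hND : NonDeg G) (hcl : Closed G)
    {x : End k V} (hx : x ∈ G) (hmin : ∀ y ∈ G, finrank k (nilp G x) ≤ finrank k (nilp G y)) :
    Tor (bcS ℂ G) (bcS ℂ (nilp G x)) := by
  have hcomm := comm_of_min hG hND hx hmin
  have hN := nonDeg_nilp hG hND hx
  have hxH : x ∈ nilp G x := by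
    refine ⟨hx, ?_⟩
    rw [SetLike.mem_coe, Module.End.mem_maxGenEigenspace]
    refine ⟨1, ?_⟩
    rw [zero_smul, sub_zero, pow_one, adE_apply, sub_self]
  have hle : bcS ℂ (nilp G x) ≤ bcS ℂ G := bcS_mono inf_le_left
  have hc : ∀ a ∈ bcS ℂ (nilp G x), ∀ b ∈ bcS ℂ (nilp G x), a * b = b * a := bcS_comm2 hcomm
  have hcen : ∀ y ∈ bcS ℂ G, (∀ a ∈ bcS ℂ (nilp G x), a * y = y * a) → y ∈ bcS ℂ (nilp G x) := by
    intro y hy hy'
    rw [(h.bc k ℂ V (nilp G x)).1]
    intro π
    refine ⟨((h.bc k ℂ V G).1 y).1 hy π, ?_⟩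
    rw [SetLike.mem_coe, Module.End.mem_maxGenEigenspace]
    refine ⟨1, ?_⟩
    rw [zero_smul, sub_zero, pow_one, adE_apply, ← Pool.Agent.Y114.RM.pM_bc_mul,
      ← Pool.Agent.Y114.RM.pM_mul_bc, hy' _ (Pool.Agent.Y114.RM.mem_bcS hxH), sub_self]
  refine ⟨(h.bc k ℂ V G).2.1 hG, (h.bc k ℂ V G).2.2.1 hND, hle, ?_, hc, hcen⟩
  intro a ha
  obtain ⟨s, hs, hs1, hs2, hs3⟩ := h2.jord k ℂ V G hcl a (hle ha)
  have hsH : s ∈ bcS ℂ (nilp G x) := by
    refine hcen s hs fun b hb => ?_
    exact (hs3 b (hc a ha b hb)).symm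
  have h0 : a - s = 0 := by
    refine (h.bc k ℂ V (nilp G x)).2.2.1 hN _ (Submodule.sub_mem _ ha hsH) fun Y hY => ?_
    have hcY : Commute (a - s) Y := by
      rw [Commute, SemiconjBy, sub_mul, mul_sub, hc a ha Y hY, hc s hsH Y hY]
    exact (LinearMap.isNilpotent_trace_of_isNilpotent (hcY.isNilpotent_mul_right hs2)).eq_zero
  rw [sub_eq_zero.1 h0]
  exact hs1

/-- Finitely many nonzero linear maps have a common vector outside of all kernels. -/
theorem exists_avoid {E : Type} [AddCommGroup E] [Module k E] {F : Type} [AddCommGroup F]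
    [Module k F] {J : Type} [Finite J] (φ : J → E →ₗ[k] F) (hφ : ∀ j, φ j ≠ 0) :
    ∃ v : E, ∀ j, φ j v ≠ 0 := by
  by_contra hcon
  push Not at hcon
  have : Infinite k := inferInstance
  obtain ⟨j, hj⟩ := Subspace.exists_eq_top_of_iUnion_eq_univ (k := k) (E := E)
    (p := fun j => LinearMap.ker (φ j)) (by
      rw [Set.eq_univ_iff_forall]
      intro v
      obtain ⟨j, hj⟩ := hcon v
      exact Set.mem_iUnion.2 ⟨j, hj⟩)
  exact hφ j (LinearMap.ker_eq_top.1 hj)

section torus

variable {W : Type} [AddCommGroup W] [Module ℂ W] [FiniteDimensional ℂ W]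
  {L t : Submodule ℂ (End ℂ W)}

/-- The weights of a torus. -/
theorem exists_weights (T : Tor L t) : ∃ (ι : Type) (_ : Fintype ι) (b : Basis ι ℂ W)
    (w : ι → t →ₗ[ℂ] ℂ), ∀ (a : t) i, (a : End ℂ W) (b i) = w i a • b i := by
  obtain ⟨ι, hι, b, w, hb⟩ := joint (fun a : t => (a : End ℂ W)) (fun a => T.diag a a.2)
    (fun a a' => T.comm a a.2 a' a'.2)
  have hw : ∀ (a : t) i, b.repr ((a : End ℂ W) (b i)) i = w a i := by
    intro a i
    rw [hb a i, map_smul, Finsupp.smul_apply, b.repr_self, Finsupp.single_eq_same, smul_eq_mul,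
      mul_one]
  refine ⟨ι, hι, b, fun i =>
    { toFun := fun a => w a i
      map_add' := fun a a' => by
        rw [← hw, ← hw, ← hw, Submodule.coe_add, LinearMap.add_apply, map_add, Finsupp.add_apply]
      map_smul' := fun c a => by
        rw [← hw, ← hw, Submodule.coe_smul, LinearMap.smul_apply, map_smul, Finsupp.smul_apply]
        rfl }, fun a i => hb a i⟩

/-- The coordinates of an element of a generalized eigenspace. -/
theorem coord_gen {ι : Type} [Fintype ι] {b : Basis ι ℂ W} {w : ι → t →ₗ[ℂ] ℂ}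
    (hb : ∀ (a : t) i, (a : End ℂ W) (b i) = w i a • b i) (a : t) {c : ℂ} {X : End ℂ W}
    (hX : X ∈ (adE (a : End ℂ W)).maxGenEigenspace c) {i j : ι} (hij : b.repr (X (b j)) i ≠ 0) :
    w i a - w j a = c := by
  have h1 : ∀ (Y : End ℂ W), b.repr ((adE (a : End ℂ W) - c • (1 : End ℂ (End ℂ W))) Y (b j)) i =
      (w i a - w j a - c) * b.repr (Y (b j)) i := by
    intro Y
    have h2 : ∀ v, b.repr ((a : End ℂ W) v) i = w i a * b.repr v i := by
      intro v
      have h3 : (a : End ℂ W) v = ∑ l, b.repr v l • (w l a • b l) := by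
        conv_lhs => rw [← b.sum_repr v]
        rw [map_sum]
        exact Finset.sum_congr rfl fun l _ => by rw [map_smul, hb]
      rw [h3, map_sum, Finset.sum_apply']
      rw [Finset.sum_eq_single i]
      · rw [map_smul, map_smul, Finsupp.smul_apply, Finsupp.smul_apply, b.repr_self,
          Finsupp.single_eq_same, smul_eq_mul, smul_eq_mul, mul_one, mul_comm]
      · intro l _ hl
        rw [map_smul, map_smul, Finsupp.smul_apply, Finsupp.smul_apply, b.repr_self,
          Finsupp.single_eq_of_ne (Ne.symm hl), smul_zero, smul_zero]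
      · intro hi
        exact absurd (Finset.mem_univ i) hi
    have h4 : (adE (a : End ℂ W) - c • (1 : End ℂ (End ℂ W))) Y (b j) =
        (a : End ℂ W) (Y (b j)) - w j a • Y (b j) - c • Y (b j) := by
      change ((a : End ℂ W) * Y - Y * a - c • Y) (b j) = _
      rw [LinearMap.sub_apply, LinearMap.sub_apply, Module.End.mul_apply, Module.End.mul_apply,
        hb, map_smul, LinearMap.smul_apply]
    rw [h4, map_sub, map_sub, Finsupp.sub_apply, Finsupp.sub_apply, h2, map_smul, map_smul,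
      Finsupp.smul_apply, Finsupp.smul_apply, smul_eq_mul, smul_eq_mul]
    ring
  have h5 : ∀ (n : ℕ) (Y : End ℂ W),
      b.repr (((adE (a : End ℂ W) - c • (1 : End ℂ (End ℂ W))) ^ n) Y (b j)) i =
        (w i a - w j a - c) ^ n * b.repr (Y (b j)) i := by
    intro n
    induction n with
    | zero => intro Y; simp
    | succ n ih =>
      intro Y
      rw [pow_succ, Module.End.mul_apply, ih, h1, pow_succ]
      ring
  obtain ⟨n, hn⟩ := (Module.End.mem_maxGenEigenspace _ _ _).1 hX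
  have h6 := h5 n X
  rw [hn, LinearMap.zero_apply, map_zero, Finsupp.zero_apply] at h6
  have h7 := (mul_eq_zero.1 h6.symm).resolve_right hij
  exact sub_eq_zero.1 (eq_zero_of_pow_eq_zero h7)

/-- A combination of the weights has the same value on all nonzero coordinates. -/
theorem wt_of_coord {ι : Type} [Fintype ι] {b : Basis ι ℂ W} {w : ι → t →ₗ[ℂ] ℂ}
    (hb : ∀ (a : t) i, (a : End ℂ W) (b i) = w i a • b i) {χ : t → ℂ} {X : End ℂ W}
    (h : ∀ i j, b.repr (X (b j)) i ≠ 0 → ∀ a, w i a - w j a = χ a) (a : t) :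
    (a : End ℂ W) * X - X * a = χ a • X := by
  refine b.ext fun j => ?_
  rw [LinearMap.sub_apply, Module.End.mul_apply, Module.End.mul_apply, hb, map_smul,
    LinearMap.smul_apply]
  have h1 : X (b j) = ∑ i, b.repr (X (b j)) i • b i := (b.sum_repr _).symm
  have h2 : (a : End ℂ W) (X (b j)) = ∑ i, b.repr (X (b j)) i • (w i a • b i) := by
    conv_lhs => rw [h1]
    rw [map_sum]
    exact Finset.sum_congr rfl fun i _ => by rw [map_smul, hb]
  have h3 : w j a • X (b j) = ∑ i, b.repr (X (b j)) i • (w j a • b i) := by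
    conv_lhs => rw [h1]
    rw [Finset.smul_sum]
    exact Finset.sum_congr rfl fun i _ => smul_comm _ _ _
  have h4 : χ a • X (b j) = ∑ i, b.repr (X (b j)) i • (χ a • b i) := by
    conv_lhs => rw [h1]
    rw [Finset.smul_sum]
    exact Finset.sum_congr rfl fun i _ => smul_comm _ _ _
  rw [h2, h3, h4, ← Finset.sum_sub_distrib]
  refine Finset.sum_congr rfl fun i _ => ?_
  by_cases h5 : b.repr (X (b j)) i = 0
  · rw [h5, zero_smul, zero_smul, zero_smul, sub_zero]
  · rw [← smul_sub, ← sub_smul, h i j h5 a]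

end torus

/-- **Generic elements of a torus.** -/
theorem exists_generic {H : Submodule k (End k V)} (T : Tor (bcS ℂ G) (bcS ℂ H)) :
    ∃ x ∈ H, nilp (bcS ℂ G) (x.baseChange ℂ) = bcS ℂ H ∧ ∀ c : ℂ, c ≠ 0 →
      finrank ℂ (bcS ℂ G ⊓ (adE (x.baseChange ℂ)).maxGenEigenspace c :
        Submodule ℂ (End ℂ (ℂ ⊗[k] V))) ≤ 1 := by
  classical
  obtain ⟨ι, hι, b, w, hb⟩ := exists_weights T
  -- the differences of weights
  let δ : ι × ι → (bcS ℂ H) →ₗ[ℂ] ℂ := fun p => w p.1 - w p.2
  let J : Type := {q : (ι × ι) × (ι × ι) // δ q.1 ≠ δ q.2}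
  let inc : H →ₗ[k] (bcS ℂ H) :=
    { toFun := fun x => ⟨(x : End k V).baseChange ℂ, Pool.Agent.Y114.RM.mem_bcS x.2⟩
      map_add' := fun x y => Subtype.ext (bc_add (x : End k V) (y : End k V))
      map_smul' := fun a x => Subtype.ext
        ((bc_smul a (x : End k V)).trans (algebraMap_smul ℂ a _)) }
  let φ : J → H →ₗ[k] ℂ := fun q => ((δ q.1.1 - δ q.1.2).restrictScalars k).comp inc
  have hφ : ∀ q, φ q ≠ 0 := by
    intro q hq
    apply q.2
    rw [← sub_eq_zero]
    refine LinearMap.ext fun y => ?_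
    obtain ⟨y, hy⟩ := y
    induction hy using Submodule.span_induction with
    | mem y hy =>
      obtain ⟨x, hx, rfl⟩ := hy
      exact LinearMap.congr_fun hq ⟨x, hx⟩
    | zero => exact map_zero _
    | add y z hy hz h1 h2 =>
      have h3 := map_add (δ q.1.1 - δ q.1.2) ⟨y, hy⟩ ⟨z, hz⟩
      rw [h1, h2] at h3
      exact h3.trans (add_zero _)
    | smul c y hy h1 =>
      have h3 := map_smul (δ q.1.1 - δ q.1.2) c ⟨y, hy⟩
      rw [h1] at h3
      exact h3.trans (smul_zero _)
  obtain ⟨x, hx⟩ := exists_avoid φ hφ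
  set a0 : bcS ℂ H := inc x with ha0
  have hgen : ∀ i j i' j', w i a0 - w j a0 = w i' a0 - w j' a0 →
      ∀ a, w i a - w j a = w i' a - w j' a := by
    intro i j i' j' heq
    by_contra hcon
    have h1 : δ (i, j) ≠ δ (i', j') := fun h1 => hcon fun a => LinearMap.congr_fun h1 a
    have h2 := hx ⟨((i, j), (i', j')), h1⟩
    apply h2
    change (w i a0 - w j a0) - (w i' a0 - w j' a0) = 0
    rw [heq, sub_self]
  -- elements of generalized eigenspaces are weight vectors
  have hwt : ∀ (c : ℂ) (X : End ℂ (ℂ ⊗[k] V)), X ∈ (adE (a0 : End ℂ (ℂ ⊗[k] V))).maxGenEigenspace c →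
      ∀ i j, b.repr (X (b j)) i ≠ 0 → w i a0 - w j a0 = c := fun c X hX i j hij =>
    coord_gen hb a0 hX hij
  have hne : ∀ X : End ℂ (ℂ ⊗[k] V), X ≠ 0 → ∃ i j, b.repr (X (b j)) i ≠ 0 := by
    intro X hX
    by_contra hcon
    push Not at hcon
    apply hX
    refine b.ext fun j => b.repr.injective (Finsupp.ext fun i => ?_)
    rw [hcon i j, LinearMap.zero_apply, map_zero, Finsupp.zero_apply]
  refine ⟨x, x.2, ?_, ?_⟩
  · apply le_antisymm
    · rintro X ⟨hX, hX'⟩
      refine T.cen X hX fun a ha => ?_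
      have h1 := wt_of_coord hb (χ := fun _ => 0) (X := X) (fun i j hij a => by
        have h2 := hwt 0 X hX' i j hij
        have h3 := hgen i j i i (by rw [h2, sub_self]) a
        rw [h3, sub_self]) ⟨a, ha⟩
      rw [zero_smul] at h1
      exact sub_eq_zero.1 h1
    · intro X hX
      refine ⟨T.le hX, ?_⟩
      rw [SetLike.mem_coe, Module.End.mem_maxGenEigenspace]
      refine ⟨1, ?_⟩
      rw [pow_one]
      change ((a0 : End ℂ (ℂ ⊗[k] V)) * X - X * a0) - (0 : ℂ) • X = 0
      rw [T.comm _ a0.2 X hX, sub_self, zero_smul, sub_zero]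
  · intro c hc
    set M : Submodule ℂ (End ℂ (ℂ ⊗[k] V)) :=
      bcS ℂ G ⊓ (adE (x.1.baseChange ℂ)).maxGenEigenspace c with hM
    by_cases h0 : M = ⊥
    · rw [h0, finrank_bot]
      exact zero_le_one
    obtain ⟨X, hX, hX0⟩ := Submodule.exists_mem_ne_zero_of_ne_bot h0
    obtain ⟨i₀, j₀, hij₀⟩ := hne X hX0
    have hval := hwt c X hX.2 i₀ j₀ hij₀
    have hW : ∀ Y ∈ M, ∀ a : bcS ℂ H, (a : End ℂ (ℂ ⊗[k] V)) * Y - Y * a =
        (w i₀ a - w j₀ a) • Y := fun Y hY =>
      wt_of_coord hb (χ := fun a => w i₀ a - w j₀ a) fun i j hij a =>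
        hgen i j i₀ j₀ ((hwt c Y hY.2 i j hij).trans hval.symm) a
    refine finrank_le_one ⟨X, hX⟩ fun Y => ?_
    obtain ⟨d, hd⟩ := root_simple T (χ := fun a => w i₀ a - w j₀ a) hX.1 Y.2.1 (hW X hX)
      (hW Y Y.2) (a0 := a0) (by change w i₀ a0 - w j₀ a0 ≠ 0; rw [hval]; exact hc) hX0
    exact ⟨d, Subtype.ext hd.symm⟩

end Pool.Agent.H853.RG
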