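import Pool.Agent.H853.SR.Add

/-!
# Definitions: characteristic polynomials on stable subspaces, generalized centralizers, the rank
-/

set_option autoImplicit false

namespace Pool.Agent.H853.RG

open Module Polynomial Pool.Agent.Y114.RM

/-- The characteristic polynomial of the restriction of `T` to the stable subspace `L`. -/
noncomputable def chOn {K : Type} [Field K] {E : Type} [AddCommGroup E] [Module K E]
    [FiniteDimensional K E] (L : Submodule K E) (T : End K E) (h : ∀ X ∈ L, T X ∈ L) : K[X] :=
  (T.restrict h).charpoly

/-- The generalized centralizer of `x` in `G`. -/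
noncomputable def nilp {K : Type} [Field K] {V : Type} [AddCommGroup V] [Module K V]
    (G : Submodule K (End K V)) (x : End K V) : Submodule K (End K V) :=
  G ⊓ (adE x).maxGenEigenspace 0

/-- `r` is the rank of the Lie algebra `G`: the least dimension of a generalized centralizer. -/
def HasRank {k : Type} [Field k] {V : Type} [AddCommGroup V] [Module k V]
    (G : Submodule k (End k V)) (r : ℕ) : Prop :=
  (∃ x ∈ G, finrank k (nilp G x) = r) ∧ ∀ x ∈ G, r ≤ finrank k (nilp G x)

end Pool.Agent.H853.RG
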