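import Pool.Agent.H853.RG.Shp

/-!
# A reductive Lie algebra contains strongly regular elements
-/

set_option autoImplicit false
set_option linter.unusedSectionVars false

namespace Pool.Agent.H853.RG

open Module Polynomial TensorProduct Pool.Agent.Y114.RM Pool.Agent.Y212.RM Pool.Agent.H853.SR
  Pool.Agent.Y809.RM.BC

variable {k : Type} [Field k] [CharZero k] [Algebra k ℂ] {V : Type} [AddCommGroup V] [Module k V]
  [FiniteDimensional k V] {G : Submodule k (End k V)}

theorem finrank_bcS (H : Submodule k (End k V)) : finrank ℂ (bcS ℂ H) = finrank k H := by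
  obtain ⟨e', -⟩ := exists_basis ℂ H (finBasis k H)
  rw [finrank_eq_card_basis e', Fintype.card_fin]

theorem adE_stable (hG : IsLie G) {x : End k V} (hx : x ∈ G) : ∀ Y ∈ G, adE x Y ∈ G :=
  fun Y hY => hG x hx Y hY

/-- **Strongly regular elements exist.** -/
theorem exists_shape (h : Inputs) (h2 : Inputs2) (hG : IsLie G) (hND : NonDeg G) (hcl : Closed G)
    {r : ℕ} (hr : HasRank G r) :
    ∃ (x : End k V) (hx : x ∈ G), Shape r (chOn G (adE x) (adE_stable hG hx)) := by
  obtain ⟨⟨x₀, hx₀, hr₀⟩, hmin⟩ := hr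
  have T := tor_of_min h h2 hG hND hcl hx₀ fun y hy => by rw [hr₀]; exact hmin y hy
  obtain ⟨x, hxH, hx1, hx2⟩ := exists_generic T
  have hx : x ∈ G := hxH.1
  refine ⟨x, hx, ?_⟩
  have hGC : IsLie (bcS ℂ G) := (h.bc k ℂ V G).2.1 hG
  have hst : ∀ Y ∈ bcS ℂ G, adE (x.baseChange ℂ) Y ∈ bcS ℂ G := fun Y hY =>
    hGC _ (Pool.Agent.Y114.RM.mem_bcS hx) Y hY
  have hch := charpoly_bc (C := ℂ) G (adE x) (adE_stable hG hx) (adE (x.baseChange ℂ))
    (fun X => by
      rw [adE_apply, adE_apply, LinearMap.baseChange_sub]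
      rw [LinearMap.baseChange_mul, LinearMap.baseChange_mul]) hst
  refine shape_of_mult ?_ ?_ ?_
  · exact (LinearMap.charpoly_monic _).ne_zero
  · rw [← hch, ← finrank_gen (bcS ℂ G) (adE (x.baseChange ℂ)) hst 0]
    change finrank ℂ (nilp (bcS ℂ G) (x.baseChange ℂ)) = r
    rw [hx1, finrank_bcS, hr₀]
  · intro c hc
    rw [← hch, ← finrank_gen (bcS ℂ G) (adE (x.baseChange ℂ)) hst c]
    exact hx2 c hc

/-- The rank does not become smaller after base change. -/
theorem rank_bc (h : Inputs) (hG : IsLie G) {r : ℕ} (hr : HasRank G r) {y : End ℂ (ℂ ⊗[k] V)}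
    (hy : y ∈ bcS ℂ G) : r ≤ finrank ℂ (nilp (bcS ℂ G) y) := by
  classical
  have hGC : IsLie (bcS ℂ G) := (h.bc k ℂ V G).2.1 hG
  have hst : ∀ Y ∈ bcS ℂ G, adE y Y ∈ bcS ℂ G := fun Y hY => hGC _ hy Y hY
  have : Infinite k := inferInstance
  let e := finBasis k G
  obtain ⟨e', he'⟩ := exists_basis ℂ G e
  -- the structure constants
  let A : Fin (finrank k G) → Matrix (Fin (finrank k G)) (Fin (finrank k G)) k := fun l =>
    LinearMap.toMatrix e e ((adE (e l : End k V)).restrict (adE_stable hG (e l).2))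
  have hA : ∀ l j, adE (e l : End k V) (e j) = ∑ i, A l i j • (e i : End k V) := by
    intro l j
    have h4 := congrArg Subtype.val
      (e.sum_repr ((adE (e l : End k V)).restrict (adE_stable hG (e l).2) (e j)))
    rw [LinearMap.coe_restrict_apply, Submodule.coe_sum] at h4
    rw [← h4]
    refine Finset.sum_congr rfl fun i _ => ?_
    rw [Submodule.coe_smul]
    exact congrArg (fun c : k => c • (e i : End k V)) (LinearMap.toMatrix_apply e e _ i j).symm
  have hAC : ∀ l j, adE (e' l : End ℂ (ℂ ⊗[k] V)) (e' j) =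
      ∑ i, (A l).map (algebraMap k ℂ) i j • (e' i : End ℂ (ℂ ⊗[k] V)) := by
    intro l j
    rw [he', he', adE_apply, ← LinearMap.baseChange_mul, ← LinearMap.baseChange_mul,
      ← LinearMap.baseChange_sub, ← adE_apply, hA, bc_sum]
    refine Finset.sum_congr rfl fun i _ => ?_
    rw [bc_smul, he', Matrix.map_apply]
  have hk : ∀ x : Fin (finrank k G) → k, (X : k[X]) ^ r ∣ (∑ l, x l • A l).charpoly := by
    intro x
    set z : End k V := ∑ l, x l • (e l : End k V) with hz
    have hzG : z ∈ G := Submodule.sum_mem _ fun l _ => G.smul_mem _ (e l).2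
    have h1 : chOn G (adE z) (adE_stable hG hzG) = (∑ l, x l • A l).charpoly := by
      refine charpoly_of _ _ _ e _ fun j => ?_
      have h2 : adE z (e j : End k V) = ∑ l, x l • adE (e l : End k V) (e j) := by
        rw [hz, adE_apply, Finset.sum_mul, Finset.mul_sum, ← Finset.sum_sub_distrib]
        refine Finset.sum_congr rfl fun l _ => ?_
        rw [adE_apply, smul_sub, smul_mul_assoc, mul_smul_comm]
      rw [h2]
      simp_rw [hA, Finset.smul_sum]
      rw [Finset.sum_comm]
      refine Finset.sum_congr rfl fun i _ => ?_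
      rw [Matrix.sum_apply, Finset.sum_smul]
      refine Finset.sum_congr rfl fun l _ => ?_
      rw [Matrix.smul_apply, smul_smul, smul_eq_mul]
    have h3 := hr.2 z hzG
    rw [nilp, finrank_gen G (adE z) (adE_stable hG hzG) 0, h1] at h3
    have h4 := (le_rootMultiplicity_iff (Matrix.charpoly_monic _).ne_zero).1 h3
    rwa [map_zero, sub_zero] at h4
  have h5 := pow_dvd_of_forall (C := ℂ) A r hk (fun l => e'.repr ⟨y, hy⟩ l)
  have h6 : chOn (bcS ℂ G) (adE y) hst =
      (∑ l, e'.repr ⟨y, hy⟩ l • (A l).map (algebraMap k ℂ)).charpoly := by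
    refine charpoly_of _ _ _ e' _ fun j => ?_
    have h7 : y = ∑ l, e'.repr ⟨y, hy⟩ l • (e' l : End ℂ (ℂ ⊗[k] V)) := by
      have h8 := congrArg Subtype.val (e'.sum_repr ⟨y, hy⟩)
      rw [Submodule.coe_sum] at h8
      exact h8.symm
    have h2 : adE y (e' j : End ℂ (ℂ ⊗[k] V)) =
        ∑ l, e'.repr ⟨y, hy⟩ l • adE (e' l : End ℂ (ℂ ⊗[k] V)) (e' j) := by
      conv_lhs => rw [h7]
      rw [adE_apply, Finset.sum_mul, Finset.mul_sum, ← Finset.sum_sub_distrib]
      refine Finset.sum_congr rfl fun l _ => ?_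
      rw [adE_apply, smul_sub, smul_mul_assoc, mul_smul_comm]
    rw [h2]
    simp_rw [hAC, Finset.smul_sum]
    rw [Finset.sum_comm]
    refine Finset.sum_congr rfl fun i _ => ?_
    rw [Matrix.sum_apply, Finset.sum_smul]
    refine Finset.sum_congr rfl fun l _ => ?_
    rw [Matrix.smul_apply, smul_smul, smul_eq_mul]
  rw [nilp, finrank_gen (bcS ℂ G) (adE y) hst 0, h6, le_rootMultiplicity_iff
    (Matrix.charpoly_monic _).ne_zero, map_zero, sub_zero]
  exact h5

end Pool.Agent.H853.RG
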