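import Pool.Agent.H853.RG.Def
import Pool.Agent.H853.SR.Fin
import Pool.Graph.R_seed8.Y114.RM.Final

/-!
# Frobenius elements which act with rational characteristic polynomials on the adjoint motive
-/

set_option autoImplicit false

namespace Pool.Agent.H853.RG

open Module Polynomial Pool.Agent.Y114.TF Pool.Agent.Y114.RM Pool.Agent.NH34.BD
  Pool.Agent.H853.SR

section general

variable {k : Type} [Field k] {V : Type} [AddCommGroup V] [Module k V] {Γ : Type} [Group Γ]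
  (ρ : Representation k Γ V)

/-- The conjugation by `γ`, that is `X ↦ ρ(γ) X ρ(γ)⁻¹`, maps `𝔤` to itself. -/
def Normalizes (𝔤 : Submodule k (End k V)) (γ : Γ) : Prop := ∀ X ∈ 𝔤, AdE (ρ γ) (ρ γ⁻¹) X ∈ 𝔤

/-- The characteristic polynomial of the conjugation by `γ` on `𝔤`. -/
noncomputable def adjointPoly [FiniteDimensional k V] {𝔤 : Submodule k (End k V)} {γ : Γ}
    (h : Normalizes ρ 𝔤 γ) : k[X] := chOn 𝔤 (AdE (ρ γ) (ρ γ⁻¹)) h

end general

section defs

variable {Γ : Type} [Group Γ] {ι : Type} {n : ι → ℕ}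
  (ρ : ∀ (ℓ : ℕ) [Fact ℓ.Prime], Reps Γ n ℓ) (𝔤 : ∀ (ℓ : ℕ) [Fact ℓ.Prime], EndSpace n ℓ)

/-- An element `γ` (a Frobenius element) which acts, for all `ℓ` outside a finite set, on the `i`-th
realization with the same characteristic polynomial `P i ∈ ℚ[T]`, all complex roots of which have the
same absolute value, and which acts on `𝔤 ℓ`, by conjugation, with the same characteristic polynomial
`A ∈ ℚ[T]`. -/
structure FrobeniusElement [Finite ι] where
  /-- finitely many exceptional primes -/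
  bad : Finset ℕ
  /-- the element -/
  γ : Γ
  /-- the characteristic polynomials -/
  P : ι → ℚ[X]
  /-- the characteristic polynomial on `𝔤` -/
  A : ℚ[X]
  charpoly : ∀ (ℓ : ℕ) [Fact ℓ.Prime], ℓ ∉ bad → ∀ i,
    (ρ ℓ i γ).charpoly = (P i).map (algebraMap ℚ ℚ_[ℓ])
  pure : ∀ i, ∃ c : ℝ, ∀ z : ℂ, aeval z (P i) = 0 → ‖z‖ ^ 2 = c
  adjoint : ∀ (ℓ : ℕ) [Fact ℓ.Prime], ℓ ∉ bad → ∃ h : Normalizes (sumRep (ρ ℓ)) (𝔤 ℓ) γ,
    adjointPoly (sumRep (ρ ℓ)) h = A.map (algebraMap ℚ ℚ_[ℓ])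

/-- The elements (Frobenius elements) as in `FrobeniusElement`, with a finite set of exceptional primes
which does not contain `ℓ`, are dense in `Γ`. -/
def DenseAt [Finite ι] [TopologicalSpace Γ] (ℓ : ℕ) : Prop :=
  Dense {γ : Γ | ∃ e : FrobeniusElement ρ 𝔤, ℓ ∉ e.bad ∧ e.γ = γ}

/-- The Lie algebras `𝔤 ℓ` have the same rank for all `ℓ`. -/
def SameRank : Prop := ∃ r : ℕ, ∀ (ℓ : ℕ) [Fact ℓ.Prime], HasRank (𝔤 ℓ) r

end defs

end Pool.Agent.H853.RG
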