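import Pool.Agent.H853.RG.Rnk
import Pool.Agent.H853.SR.Fin

/-!
# Strongly regular elements of a group, by the characteristic polynomial on the Lie algebra
-/

set_option autoImplicit false
set_option linter.unusedSectionVars false

namespace Pool.Agent.H853.RG

open Module Polynomial TensorProduct Pool.Agent.TH118.SG Pool.Agent.Y114.RM Pool.Agent.Y212.RM
  Pool.Agent.H853.SR Pool.Agent.NH34.BD Pool.Agent.H853.OP Pool.Agent.Y86.RM Pool.Agent.Y914.RM
  Pool.Agent.Y114.MU Pool.Agent.H204R3.GP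

section poly

variable {K : Type} [Field K]

/-- No root of unity except one is a root. -/
def FreeOne (P : K[X]) : Prop :=
  ∃ (s : ℕ) (Q : K[X]), P = (X - 1) ^ s * Q ∧ ∀ m : ℕ, 0 < m → IsCoprime Q (X ^ m - 1)

theorem eval_ne_of_coprime {Q : K[X]} {m : ℕ} (h : IsCoprime Q (X ^ m - 1)) {β : K}
    (hβ : β ^ m = 1) : Q.eval β ≠ 0 := by
  obtain ⟨a, b, hab⟩ := h
  intro h0
  have h1 := congrArg (eval β) hab
  rw [eval_add, eval_mul, eval_mul, h0, eval_sub, eval_pow, eval_X, eval_one, hβ, sub_self,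
    mul_zero, mul_zero, add_zero] at h1
  exact zero_ne_one h1

theorem FreeOne.map {F : Type} [Field F] (j : K →+* F) {P : K[X]} (h : FreeOne P) :
    FreeOne (P.map j) := by
  obtain ⟨s, Q, h1, h2⟩ := h
  refine ⟨s, Q.map j, ?_, fun m hm => ?_⟩
  · rw [h1, Polynomial.map_mul, Polynomial.map_pow, Polynomial.map_sub, map_X, Polynomial.map_one]
  · have h4 := (h2 m hm).map (mapRingHom j)
    simp only [coe_mapRingHom, Polynomial.map_sub, Polynomial.map_pow, map_X,
      Polynomial.map_one] at h4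
    exact h4

theorem FreeOne.root {P : K[X]} (h : FreeOne P) {β : K} (hβ : β ≠ 1) {m : ℕ} (hm : 0 < m)
    (hβm : β ^ m = 1) : P.eval β ≠ 0 := by
  obtain ⟨s, Q, h1, h2⟩ := h
  rw [h1, eval_mul, eval_pow, eval_sub, eval_X, eval_one]
  exact mul_ne_zero (pow_ne_zero _ (sub_ne_zero.2 hβ)) (eval_ne_of_coprime (h2 m hm) hβm)

theorem ShapeOne.free {r : ℕ} {P : K[X]} (h : ShapeOne r P) : FreeOne P := by
  obtain ⟨S, h1, -, h3⟩ := h
  exact ⟨r, S, h1, h3⟩

theorem ShapeOne.mult_one {r : ℕ} {P : K[X]} (h : ShapeOne r P) (hP : P ≠ 0) :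
    P.rootMultiplicity 1 = r := by
  obtain ⟨S, h1, -, h3⟩ := h
  have hev : S.eval 1 ≠ 0 := eval_ne_of_coprime (h3 1 one_pos) (one_pow 1)
  have hSne : S ≠ 0 := by
    rintro rfl
    exact hev eval_zero
  have h4 : (X - 1 : K[X]) = X - C 1 := by rw [map_one]
  rw [h1, h4, rootMultiplicity_mul (mul_ne_zero (pow_ne_zero _ (X_sub_C_ne_zero 1)) hSne),
    rootMultiplicity_X_sub_C_pow, rootMultiplicity_eq_zero (fun h => hev h), add_zero]

theorem ShapeOne.mult_le {r : ℕ} {P : K[X]} (h : ShapeOne r P) {β : K} (hβ : β ≠ 1) :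
    P.rootMultiplicity β ≤ 1 := by
  obtain ⟨S, h1, h2, h3⟩ := h
  have hev : S.eval 1 ≠ 0 := eval_ne_of_coprime (h3 1 one_pos) (one_pow 1)
  have hSne : S ≠ 0 := by
    rintro rfl
    exact hev eval_zero
  have h4 : (X - 1 : K[X]) = X - C 1 := by rw [map_one]
  have h5 : ((X - C 1 : K[X]) ^ r).rootMultiplicity β = 0 := by
    apply rootMultiplicity_eq_zero
    intro h
    rw [IsRoot.def, eval_pow, eval_sub, eval_X, eval_C] at h
    exact hβ (sub_eq_zero.1 (eq_zero_of_pow_eq_zero h))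
  rw [h1, h4, rootMultiplicity_mul (mul_ne_zero (pow_ne_zero _ (X_sub_C_ne_zero 1)) hSne), h5,
    zero_add]
  exact rootMultiplicity_le_one_of_separable h2 β

end poly

section padic

variable {p : ℕ} [Fact p.Prime] {m : Type} [Fintype m] [DecidableEq m]

/-- Eigenvalues are bounded by the entries. -/
theorem root_bound (A : Matrix m m ℚ_[p]) {B : ℝ} (hB : 0 ≤ B) (hA : ∀ i j, ‖A i j‖ ≤ B)
    {b : PadicAlgCl p} (hb : aeval b A.charpoly = 0) : ‖b‖ ≤ B := by
  rw [aeval_charpoly] at hb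
  obtain ⟨v, hv0, hv⟩ := Matrix.exists_mulVec_eq_zero_iff.2 hb
  rw [Matrix.sub_mulVec, sub_eq_zero] at hv
  have hne : (Finset.univ : Finset m).Nonempty := by
    by_contra hcon
    rw [Finset.not_nonempty_iff_eq_empty, Finset.univ_eq_empty_iff] at hcon
    exact hv0 (funext fun i => hcon.elim i)
  obtain ⟨i, -, hi⟩ := Finset.univ.exists_max_image (fun i => ‖v i‖) hne
  have hvi : 0 < ‖v i‖ := by
    obtain ⟨j, hj⟩ := Function.ne_iff.1 hv0
    exact (norm_pos_iff.2 hj).trans_le (hi j (Finset.mem_univ j))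
  have h1 := congrFun hv i
  have h2 : (Matrix.scalar m b).mulVec v i = b * v i := by
    rw [Matrix.scalar_apply, Matrix.mulVec_diagonal]
  rw [h2] at h1
  have h3 : ‖b * v i‖ ≤ B * ‖v i‖ := by
    rw [h1]
    refine IsUltrametricDist.norm_sum_le_of_forall_le_of_nonneg (by positivity) fun j _ => ?_
    rw [norm_mul]
    have h4 : ‖(A.map (algebraMap ℚ_[p] (PadicAlgCl p))) i j‖ = ‖A i j‖ :=
      PadicAlgCl.norm_extends p _
    rw [h4]
    exact mul_le_mul (hA i j) (hi j (Finset.mem_univ j)) (norm_nonneg _) hB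
  rw [norm_mul] at h3
  exact le_of_mul_le_mul_right h3 hvi

theorem free_of (A : Matrix m m ℚ_[p]) {B : ℝ}
    (hB : ∀ b : PadicAlgCl p, aeval b A.charpoly = 0 → ‖b‖ ≤ B) {t : ℚ_[p]} (ht : t ≠ 0)
    (htB : ‖t‖ * B < (p : ℝ)⁻¹) : FreeOne (1 + t • A).charpoly := by
  set P := (1 + t • A).charpoly with hP
  have hne : P ≠ 0 := (1 + t • A).charpoly_monic.ne_zero
  obtain ⟨Q, hQ, hQ'⟩ := exists_eq_pow_rootMultiplicity_mul_and_not_dvd P hne 1
  rw [map_one] at hQ
  refine ⟨_, Q, hQ, fun k hk => ?_⟩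
  refine (isCoprime_iff_aeval_ne_zero_of_isAlgClosed ℚ_[p] (PadicAlgCl p) _ _).2 fun z => ?_
  by_contra hcon
  push Not at hcon
  obtain ⟨h1, h2⟩ := hcon
  have h3 : z ^ k = 1 := by
    rw [map_sub, map_pow, aeval_X, map_one] at h2
    exact sub_eq_zero.1 h2
  set b : PadicAlgCl p := algebraMap ℚ_[p] (PadicAlgCl p) t⁻¹ * (z - 1) with hb
  have h4 : aeval z P = 0 := by rw [hQ, map_mul, h1, mul_zero]
  have h5 : aeval b A.charpoly = 0 := by
    rw [hP, charpoly_one_add A ht, map_mul, aeval_C, aeval_comp] at h4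
    have h6 : aeval z (C t⁻¹ * (X - 1) : ℚ_[p][X]) = b := by
      rw [map_mul, aeval_C, map_sub, aeval_X, map_one]
    rw [h6] at h4
    exact (mul_eq_zero.1 h4).resolve_left
      ((_root_.map_ne_zero (algebraMap ℚ_[p] (PadicAlgCl p))).2 (pow_ne_zero _ ht))
  have h6 := hB b h5
  have h7 : z - 1 = algebraMap ℚ_[p] (PadicAlgCl p) t * b := by
    rw [hb, ← mul_assoc, ← map_mul, mul_inv_cancel₀ ht, map_one, one_mul]
  have h8 : ‖z - 1‖ < (p : ℝ)⁻¹ := by
    rw [h7, norm_mul]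
    have h9 : ‖(algebraMap ℚ_[p] (PadicAlgCl p) t : PadicAlgCl p)‖ = ‖t‖ :=
      PadicAlgCl.norm_extends p t
    rw [h9]
    exact (mul_le_mul_of_nonneg_left h6 (norm_nonneg _)).trans_lt htB
  have h9 : z = 1 := eq_one_of_pow h8 hk h3
  apply hQ'
  rw [map_one]
  have h10 : Q.eval 1 = 0 := by
    rw [h9] at h1
    have h11 : aeval (algebraMap ℚ_[p] (PadicAlgCl p) 1) Q = 0 := by rw [map_one]; exact h1
    rw [aeval_algebraMap_apply, map_eq_zero, coe_aeval_eq_eval] at h11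
    exact h11
  have h12 := dvd_iff_isRoot.2 h10
  rwa [map_one] at h12

end padic

section rep

variable {k : Type} [Field k] [CharZero k] [Algebra k ℂ] {V : Type} [AddCommGroup V] [Module k V]
  [FiniteDimensional k V] {Γ : Type} [Group Γ] (ρ : Representation k Γ V)
  {G : Submodule k (End k V)}

/-- The stability of `G` under the conjugation by `γ`. -/
def Normal (G : Submodule k (End k V)) (γ : Γ) : Prop := ∀ X ∈ G, AdE (ρ γ) (ρ γ⁻¹) X ∈ G

/-- The characteristic polynomial of the conjugation by `γ` on `G`. -/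
noncomputable def chAd {γ : Γ} (hγ : Normal ρ G γ) : k[X] := chOn G (AdE (ρ γ) (ρ γ⁻¹)) hγ

theorem chAd_ne {γ : Γ} (hγ : Normal ρ G γ) : chAd ρ hγ ≠ 0 :=
  (LinearMap.charpoly_monic _).ne_zero

theorem finrank_rootSpace {γ : Γ} (hγ : Normal ρ G γ) (β : ℂ) :
    finrank ℂ (rootSpace ρ G γ β) = ((chAd ρ hγ).map (algebraMap k ℂ)).rootMultiplicity β := by
  have hst := AdE_bcS (C := ℂ) hγ
  rw [rootSpace, finrank_gen (bcS ℂ G) _ hst β]
  congr 1
  exact charpoly_bc G _ hγ _ (fun X => by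
    rw [AdE_apply, AdE_apply, ← LinearMap.baseChange_mul, ← LinearMap.baseChange_mul]) hst

theorem tf_of_free {γ : Γ} (hγ : Normal ρ G γ) (h : FreeOne (chAd ρ hγ)) :
    TF ((ρ γ).baseChange ℂ) ((ρ γ⁻¹).baseChange ℂ) (bcS ℂ G) where
  inv := by rw [← bc_mul, rho_mul_inv, bc_one]
  inv' := by rw [← bc_mul, rho_inv_mul, bc_one]
  stable := AdE_bcS hγ
  tf := fun β hβ m hm hβm X hX hX' => by
    have h1 := (h.map (algebraMap k ℂ)).root hβ hm hβm
    have h2 : finrank ℂ (rootSpace ρ G γ β) = 0 := by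
      rw [finrank_rootSpace ρ hγ β]
      exact rootMultiplicity_eq_zero h1
    have h3 : X ∈ rootSpace ρ G γ β := ⟨hX, hX'⟩
    rw [Submodule.finrank_eq_zero.1 h2] at h3
    exact (Submodule.mem_bot ℂ).1 h3

/-- The multiplicity of the eigenvalue one is at least the rank. -/
theorem rank_le_mult (h : Inputs) (hG : IsLie G) {L : Submodule k (End k V)}
    (hL : ∀ X, X ∈ L ↔ X ∈ LT ρ) (hLG : L ≤ G) {r : ℕ} (hr : HasRank G r) {γ : Γ}
    (hγ : Normal ρ G γ) (hf : FreeOne (chAd ρ hγ)) :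
    r ≤ finrank ℂ (rootSpace ρ G γ 1) := by
  obtain ⟨D, hD, hD1⟩ := exists_torus_elt (tf_of_free ρ hγ hf) ((tor_le ρ h hL γ).trans (bcS_mono hLG))
  rw [rootSpace, hD1]
  exact rank_bc h hG hr hD

/-- **Strong regularity from the characteristic polynomial.** -/
theorem stronglyRegular_of (h : Inputs) (hG : IsLie G) (hND : NonDeg G) {L : Submodule k (End k V)}
    (hL : ∀ X, X ∈ L ↔ X ∈ LT ρ) (hLG : L ≤ G) {r : ℕ} (hr : HasRank G r) {γ : Γ}
    (hγ : Normal ρ G γ) (hf : ShapeOne r (chAd ρ hγ)) : StronglyRegular ρ G γ := by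
  have hmne : (chAd ρ hγ).map (algebraMap k ℂ) ≠ 0 :=
    (Polynomial.map_ne_zero_iff (algebraMap k ℂ).injective).2 (chAd_ne ρ hγ)
  refine ⟨fun X hX => ?_, ?_, fun β hβ => ?_, fun β hβ hm => ?_⟩
  · have h1 := hγ X hX
    rwa [AdE_apply, ← mul_assoc] at h1
  · obtain ⟨D, hD, hD1⟩ := exists_torus_elt (tf_of_free ρ hγ hf.free)
      ((tor_le ρ h hL γ).trans (bcS_mono hLG))
    have h1 : finrank ℂ (nilp (bcS ℂ G) D) = r := by
      rw [← hD1]
      change finrank ℂ (rootSpace ρ G γ 1) = r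
      rw [finrank_rootSpace ρ hγ 1]
      exact (hf.map (algebraMap k ℂ)).mult_one hmne
    have h2 := comm_of_min ((h.bc k ℂ V G).2.1 hG) ((h.bc k ℂ V G).2.2.1 hND) hD
      (fun y hy => by rw [h1]; exact rank_bc h hG hr hy)
    rw [← hD1] at h2
    exact h2
  · rw [finrank_rootSpace ρ hγ β]
    exact (hf.map (algebraMap k ℂ)).mult_le hβ
  · obtain ⟨m, hm, hβm⟩ := hm
    rw [← Submodule.finrank_eq_zero (R := ℂ), finrank_rootSpace ρ hγ β]
    exact rootMultiplicity_eq_zero ((hf.map (algebraMap k ℂ)).free.root hβ hm hβm)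

end rep

end Pool.Agent.H853.RG
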