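import Pool.Agent.H853.RG.Sys
import Pool.Agent.H853.OS.Fin

/-!
# Semisimplicity from the Mumford-Tate conjecture at one prime
-/

set_option autoImplicit false
set_option linter.unusedSectionVars false

namespace Pool.Agent.H853.RG

open Module Polynomial TensorProduct Pool.Agent.TH118.SG Pool.Agent.Y114.TF Pool.Agent.Y114.GF
  Pool.Agent.Y114.MU Pool.Agent.Y114.RM Pool.Agent.H204R3.GP Pool.Agent.NH34.BD
  Pool.Agent.Y212.RM Pool.Agent.Y86.RM Pool.Agent.Y914.RM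
  Pool.Agent.H853.SR Pool.Agent.H853.CC Pool.Agent.W522.C Pool.Agent.H853.OP Pool.Agent.H853.OS

section Emb

open Cardinal

theorem card_padic_le (p : ℕ) [Fact p.Prime] : #ℚ_[p] ≤ 𝔠 := by
  have h1 : #ℚ_[p] ≤ #(CauSeq ℚ (padicNorm p)) := Cardinal.mk_le_of_surjective
    (f := fun x => (Quotient.mk _ x : ℚ_[p])) (by
      intro x
      exact Quotient.exists_rep x)
  refine h1.trans ((Cardinal.mk_subtype_le _).trans ?_)
  have h2 : #(ℕ → ℚ) = 𝔠 := by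
    rw [Cardinal.mk_arrow]
    simp
  exact h2.le

theorem exists_emb (p : ℕ) [Fact p.Prime] : Nonempty (ℚ_[p] →+* ℂ) := by
  have hge : 𝔠 ≤ #ℚ_[p] := continuum_le_cardinal_of_nontriviallyNormedField ℚ_[p]
  have h1 : #(AlgebraicClosure ℚ_[p]) ≤ 𝔠 := by
    refine (Algebra.IsAlgebraic.cardinalMk_le_max ℚ_[p] (AlgebraicClosure ℚ_[p])).trans ?_
    exact max_le (card_padic_le p) Cardinal.aleph0_le_continuum
  have h2 : 𝔠 ≤ #(AlgebraicClosure ℚ_[p]) :=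
    hge.trans (Cardinal.mk_le_of_injective (algebraMap ℚ_[p] (AlgebraicClosure ℚ_[p])).injective)
  have h3 : #(AlgebraicClosure ℚ_[p]) = #ℂ := by
    rw [le_antisymm h1 h2, Cardinal.mk_complex]
  obtain ⟨e⟩ := IsAlgClosed.ringEquiv_of_equiv_of_charZero (K := AlgebraicClosure ℚ_[p]) (L := ℂ)
    (by rw [le_antisymm h1 h2]; exact Cardinal.aleph0_lt_continuum) (Cardinal.eq.1 h3)
  exact ⟨e.toRingHom.comp (algebraMap ℚ_[p] (AlgebraicClosure ℚ_[p]))⟩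

end Emb

section mat

variable {p : ℕ} [Fact p.Prime] {m : Type} [Fintype m] [DecidableEq m]

theorem pow_dvd_of_one_add (A : Matrix m m ℚ_[p]) {t : ℚ_[p]} (ht : t ≠ 0) {r : ℕ}
    (h : (X - 1 : ℚ_[p][X]) ^ r ∣ (1 + t • A).charpoly) : X ^ r ∣ A.charpoly := by
  obtain ⟨Q, hQ⟩ := h
  rw [charpoly_one_add A ht] at hQ
  have h1 := congrArg (fun P : ℚ_[p][X] => P.comp (1 + C t * X)) hQ
  simp only [mul_comp, C_comp, comp_assoc, sub_comp, X_comp, one_comp, pow_comp] at h1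
  have h2 : (C t⁻¹ * (1 + C t * X - 1) : ℚ_[p][X]) = X := by
    rw [add_sub_cancel_left, ← mul_assoc, ← C_mul, inv_mul_cancel₀ ht, C_1, one_mul]
  have h3 : (1 + C t * X - 1 : ℚ_[p][X]) = C t * X := by rw [add_sub_cancel_left]
  rw [h2, h3, comp_X, mul_pow] at h1
  have h4 : A.charpoly = X ^ r * (C (t ^ Fintype.card m)⁻¹ * (C t ^ r * Q.comp (1 + C t * X))) := by
    have h5 : A.charpoly = C (t ^ Fintype.card m)⁻¹ * (C (t ^ Fintype.card m) * A.charpoly) := by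
      rw [← mul_assoc, ← C_mul, inv_mul_cancel₀ (pow_ne_zero _ ht), C_1, one_mul]
    rw [h5, h1]
    ring
  exact ⟨_, h4⟩

end mat

section app

variable {Γ : Type} [Group Γ] [TopologicalSpace Γ] {ι : Type} [Fintype ι] [DecidableEq ι]
  {n : ι → ℕ} {ρ : ∀ (ℓ : ℕ) [Fact ℓ.Prime], Reps Γ n ℓ}
  {𝔤 : ∀ (ℓ : ℕ) [Fact ℓ.Prime], EndSpace n ℓ}

theorem approxF {ℓ : ℕ} [Fact ℓ.Prime] (hρ : Conts (ρ ℓ)) (hD : DenseAt ρ 𝔤 ℓ)
    {X : End ℚ_[ℓ] (∀ i, Fin (n i) → ℚ_[ℓ])}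
    (hX : ∀ ε : ℝ, 0 < ε → ∃ γ t, Close (K := ℚ_[ℓ]) (ρ ℓ) ε X γ t) {ε : ℝ} (hε : 0 < ε) :
    ∃ (e : FrobeniusElement ρ 𝔤) (t : ℚ_[ℓ]), ℓ ∉ e.bad ∧ t ≠ 0 ∧ ‖t‖ < ε ∧
      ∀ i a b, ‖t⁻¹ * (LinearMap.toMatrix' (ρ ℓ i e.γ) - 1) a b - block X i a b‖ < ε := by
  obtain ⟨γ, t, ht, htε, hγ⟩ := hX (ε / 2) (half_pos hε)
  have htn : 0 < ‖t‖ := norm_pos_iff.2 ht
  have h1 : ∀ᶠ γ' in nhds γ, ∀ i a b, ‖(LinearMap.toMatrix' (ρ ℓ i γ')) a b -
      (LinearMap.toMatrix' (ρ ℓ i γ)) a b‖ < ‖t‖ * (ε / 2) := by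
    refine Filter.eventually_all.2 fun i => Filter.eventually_all.2 fun a =>
      Filter.eventually_all.2 fun b => ?_
    have h2 : Continuous fun γ' : Γ => (LinearMap.toMatrix' (ρ ℓ i γ')) a b :=
      (hρ i).matrix_elem a b
    have h3 : Filter.Tendsto (fun γ' : Γ => ‖(LinearMap.toMatrix' (ρ ℓ i γ')) a b -
        (LinearMap.toMatrix' (ρ ℓ i γ)) a b‖) (nhds γ) (nhds 0) := by
      have h4 : Continuous (fun γ' : Γ => ‖(LinearMap.toMatrix' (ρ ℓ i γ')) a b -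
        (LinearMap.toMatrix' (ρ ℓ i γ)) a b‖) := (h2.sub continuous_const).norm
      have h5 := h4.tendsto γ
      simp only [sub_self, norm_zero] at h5
      exact h5
    exact h3.eventually_lt_const (by positivity)
  obtain ⟨γ', ⟨e, he, rfl⟩, hγ'⟩ := hD.inter_nhds_nonempty h1
  refine ⟨e, t, he, ht, htε.trans (half_lt_self hε), fun i a b => ?_⟩
  have h2 := hγ' i a b
  have h3 := hγ i a b
  have h4 : t⁻¹ * (LinearMap.toMatrix' (ρ ℓ i e.γ) - 1) a b - block X i a b =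
      t⁻¹ * ((LinearMap.toMatrix' (ρ ℓ i e.γ)) a b - (LinearMap.toMatrix' (ρ ℓ i γ)) a b) +
        (t⁻¹ * (LinearMap.toMatrix' (ρ ℓ i γ) - 1) a b - block X i a b) := by
    simp only [Matrix.sub_apply]
    ring
  rw [h4]
  refine (norm_add_le _ _).trans_lt ?_
  have h5 : ‖t⁻¹ * ((LinearMap.toMatrix' (ρ ℓ i e.γ)) a b -
      (LinearMap.toMatrix' (ρ ℓ i γ)) a b)‖ < ε / 2 := by
    rw [norm_mul, norm_inv]
    calc ‖t‖⁻¹ * _ < ‖t‖⁻¹ * (‖t‖ * (ε / 2)) := mul_lt_mul_of_pos_left h2 (inv_pos.2 htn)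
      _ = ε / 2 := by field_simp
  linarith

end app

section gen

theorem ad_charpoly {K V : Type} [Field K] [AddCommGroup V] [Module K V] [FiniteDimensional K V]
    {G : Submodule K (End K V)} {d : ℕ} (b : Basis (Fin d) K G) {T : End K (End K V)}
    (hT : ∀ Y ∈ G, T Y ∈ G) : (LinearMap.toMatrix b b (T.restrict hT)).charpoly = chOn G T hT :=
  LinearMap.charpoly_toMatrix _ b

theorem exists_fin_basis {K V : Type} [Field K] [AddCommGroup V] [Module K V]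
    [FiniteDimensional K V] (G : Submodule K (End K V)) :
    ∃ d : ℕ, Nonempty (Basis (Fin d) K G) := ⟨_, ⟨finBasis K G⟩⟩

theorem adjointPoly_ne {K V : Type} [Field K] [AddCommGroup V] [Module K V]
    [FiniteDimensional K V] {Γ : Type} [Group Γ] (ρ : Representation K Γ V)
    {G : Submodule K (End K V)} {γ : Γ} (h : Normalizes ρ G γ) : adjointPoly ρ h ≠ 0 :=
  (LinearMap.charpoly_monic _).ne_zero

end gen

section loc

variable {Γ : Type} [Group Γ] {ι : Type} [Fintype ι] [DecidableEq ι] {n : ι → ℕ} {p : ℕ}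
  [Fact p.Prime] (ρ : ∀ i, Representation ℚ_[p] Γ (Fin (n i) → ℚ_[p]))

theorem exists_direction [Algebra ℚ_[p] ℂ]
    {G : Submodule ℚ_[p] (End ℚ_[p] (∀ i, Fin (n i) → ℚ_[p]))} (hG : IsMotivic ρ G)
    {r : ℕ} (hr : HasRank G r) : ∃ x ∈ G, ∃ δ : ℝ, 0 < δ ∧ ∀ (γ : Γ) (t : ℚ_[p]), t ≠ 0 →
      ‖t‖ < δ →
      (∀ i a b, ‖t⁻¹ * (LinearMap.toMatrix' (ρ i γ) - 1) a b - block x i a b‖ < δ) →
      ∀ hγ : (∀ X ∈ G, AdE (sumRep ρ γ) (sumRep ρ γ⁻¹) X ∈ G),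
        ShapeOne r (chOn G (AdE (sumRep ρ γ) (sumRep ρ γ⁻¹)) hγ) := by
  classical
  have hLie : IsLie G := hG.bracket
  have hND : NonDeg G := hG.nondeg
  have hcl : Closed G := hG.algebraic
  obtain ⟨x, hx, hS⟩ := exists_shape inputs inputs2 hLie hND hcl hr
  obtain ⟨d, ⟨b⟩⟩ := exists_fin_basis G
  have hst : ∀ Y ∈ G, adE x Y ∈ G := adE_stable hLie hx
  set M := LinearMap.toMatrix b b ((adE x).restrict hst) with hMdef
  have hM : Shape r M.charpoly := by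
    rw [hMdef, ad_charpoly]
    exact hS
  obtain ⟨ε1, hε1, C1, hC1, hnear⟩ := near_shape M hM
  obtain ⟨B0, hB0, hB0'⟩ : ∃ B0 : ℝ, 0 < B0 ∧ ∀ i j, ‖M i j‖ + 1 ≤ B0 := by
    refine ⟨(∑ i, ∑ j, ‖M i j‖) + 1, ?_, fun i j => ?_⟩
    · have : (0 : ℝ) ≤ ∑ i, ∑ j, ‖M i j‖ :=
        Finset.sum_nonneg fun i _ => Finset.sum_nonneg fun j _ => norm_nonneg _
      linarith
    · have h1 : ‖M i j‖ ≤ ∑ j, ‖M i j‖ :=
        Finset.single_le_sum (f := fun j => ‖M i j‖) (fun _ _ => norm_nonneg _)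
          (Finset.mem_univ j)
      have h2 : ∑ j, ‖M i j‖ ≤ ∑ i, ∑ j, ‖M i j‖ :=
        Finset.single_le_sum (f := fun i => ∑ j, ‖M i j‖)
          (fun _ _ => Finset.sum_nonneg fun j _ => norm_nonneg _) (Finset.mem_univ i)
      linarith
  obtain ⟨ε2, hε2, had⟩ := near_ad ρ hG.parts hLie b hx (ε := min ε1 1)
    (lt_min hε1 one_pos)
  have hℓ0 : (0 : ℝ) < p := by exact_mod_cast (Fact.out : p.Prime).pos
  refine ⟨x, hx, min ε2 ((p : ℝ)⁻¹ / (B0 + C1)), lt_min hε2 (by positivity),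
    fun γ t ht0 htδ hclose hN => ?_⟩
  set N := LinearMap.toMatrix b b
    ((AdE (sumRep ρ γ) (sumRep ρ γ⁻¹)).restrict hN) with hNdef
  have hNpoly : N.charpoly = chOn G (AdE (sumRep ρ γ) (sumRep ρ γ⁻¹)) hN := by
    rw [hNdef, ad_charpoly]
  set A : Matrix _ _ ℚ_[p] := t⁻¹ • (N - 1) with hAdef
  have hNA : N = 1 + t • A := by
    rw [hAdef, smul_smul, mul_inv_cancel₀ ht0, one_smul]
    abel
  have htn : 0 < ‖t‖ := norm_pos_iff.2 ht0
  have hAM : ∀ i j, ‖A i j - M i j‖ < min ε1 1 :=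
    had γ t ht0 (htδ.trans_le (min_le_left _ _))
      (fun i a b => (hclose i a b).trans_le (min_le_left _ _)) hN
  have hAB : ∀ i j, ‖A i j‖ ≤ B0 := by
    intro i j
    have h1 : A i j = (A i j - M i j) + M i j := by ring
    rw [h1]
    refine (norm_add_le _ _).trans ?_
    have h2 := (hAM i j).trans_le (min_le_right _ _)
    have h3 := hB0' i j
    linarith
  have htB : ‖t‖ * (B0 + C1) < (p : ℝ)⁻¹ := by
    have h1 := htδ.trans_le (min_le_right ε2 ((p : ℝ)⁻¹ / (B0 + C1)))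
    rwa [lt_div_iff₀ (by positivity)] at h1
  have htB1 : ‖t‖ * B0 < (p : ℝ)⁻¹ := by
    refine lt_of_le_of_lt ?_ htB
    exact mul_le_mul_of_nonneg_left (by linarith) htn.le
  have htB2 : ‖t‖ * C1 < (p : ℝ)⁻¹ := by
    refine lt_of_le_of_lt ?_ htB
    exact mul_le_mul_of_nonneg_left (by linarith) htn.le
  have hfree : FreeOne N.charpoly := by
    rw [hNA]
    exact free_of A (fun b hb => root_bound A hB0.le hAB hb) ht0 htB1
  obtain ⟨L, hL, -⟩ := inputs.lie ℚ_[p] (∀ i, Fin (n i) → ℚ_[p]) _ (sumRep ρ)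
  have hLG : L ≤ G := fun X hX =>
    hG.algebraic X fun m φ hφ => ((hL X).1 hX).2 m φ (hG.tate m φ hφ)
  have hchAd : chAd (sumRep ρ) hN = N.charpoly := hNpoly.symm
  have hrank : r ≤ finrank ℂ (rootSpace (sumRep ρ) G γ 1) :=
    rank_le_mult (sumRep ρ) inputs hLie hL hLG hr hN (by rw [hchAd]; exact hfree)
  rw [finrank_rootSpace _ hN 1, hchAd] at hrank
  have hrank' : r ≤ N.charpoly.rootMultiplicity 1 := by
    refine hrank.trans (le_of_eq ?_)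
    have h1 := eq_rootMultiplicity_map (p := N.charpoly) (algebraMap ℚ_[p] ℂ).injective 1
    rw [map_one] at h1
    exact h1.symm
  have hdvd : (X - 1 : ℚ_[p][X]) ^ r ∣ N.charpoly := by
    have h1 := (le_rootMultiplicity_iff (Matrix.charpoly_monic N).ne_zero).1 hrank'
    rwa [map_one] at h1
  rw [hNA] at hdvd
  obtain ⟨hSA, hSB⟩ := hnear A (fun i j => (hAM i j).trans_le (min_le_left _ _))
    (pow_dvd_of_one_add A ht0 hdvd)
  have hfin := shapeOne_of A hSA hSB ht0 htB2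
  rw [← hNA, hNpoly] at hfin
  exact hfin

end loc

section one

variable {Γ : Type} [Group Γ] [TopologicalSpace Γ] {ι : Type} [Fintype ι] [DecidableEq ι]
  {n : ι → ℕ} {ρ : ∀ (ℓ : ℕ) [Fact ℓ.Prime], Reps Γ n ℓ}
  {𝔤 : ∀ (ℓ : ℕ) [Fact ℓ.Prime], EndSpace n ℓ}

/-- A Frobenius element with the generic characteristic polynomial on `𝔤`. -/
theorem exists_element {ℓ : ℕ} [Fact ℓ.Prime] (hρ : Conts (ρ ℓ)) (hG : Motivic (ρ ℓ) (𝔤 ℓ))
    {r : ℕ} (hr : HasRank (𝔤 ℓ) r) (hD : DenseAt ρ 𝔤 ℓ) (hMT : LieMumfordTate (ρ ℓ) (𝔤 ℓ)) :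
    ∃ e : FrobeniusElement ρ 𝔤, ShapeOne r e.A := by
  obtain ⟨j⟩ := exists_emb ℓ
  let _ : Algebra ℚ_[ℓ] ℂ := j.toAlgebra
  obtain ⟨x, hx, δ, hδ, h⟩ := exists_direction (ρ ℓ) hG hr
  obtain ⟨e, t, he, ht0, htδ, hclose⟩ := approxF hρ hD (hMT x hx) hδ
  obtain ⟨hN, hA⟩ := e.adjoint ℓ he
  have h1 := h e.γ t ht0 htδ hclose hN
  have h2 : ShapeOne r (e.A.map (algebraMap ℚ ℚ_[ℓ])) := by
    rw [← hA]
    exact h1
  refine ⟨e, ShapeOne.of_map _ (fun h0 => ?_) h2⟩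
  rw [h0, Polynomial.map_zero] at hA
  exact adjointPoly_ne (sumRep (ρ ℓ)) hN hA

end one

section two

variable {Γ : Type} [Group Γ] {ι : Type} [Fintype ι] [DecidableEq ι] {n : ι → ℕ} {p : ℕ}
  [Fact p.Prime] (ρ : ∀ i, Representation ℚ_[p] Γ (Fin (n i) → ℚ_[p]))

theorem regular_local [Algebra ℚ_[p] ℂ]
    {G : Submodule ℚ_[p] (End ℚ_[p] (∀ i, Fin (n i) → ℚ_[p]))} (hG : IsMotivic ρ G)
    {r : ℕ} (hr : HasRank G r) {γ : Γ}
    (hN : ∀ X ∈ G, AdE (sumRep ρ γ) (sumRep ρ γ⁻¹) X ∈ G)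
    (hA : ShapeOne r (chOn G (AdE (sumRep ρ γ) (sumRep ρ γ⁻¹)) hN)) :
    StronglyRegular (sumRep ρ) G γ := by
  obtain ⟨L, hL, -⟩ := inputs.lie ℚ_[p] (∀ i, Fin (n i) → ℚ_[p]) _ (sumRep ρ)
  have hLG : L ≤ G := fun X hX =>
    hG.algebraic X fun m φ hφ => ((hL X).1 hX).2 m φ (hG.tate m φ hφ)
  exact stronglyRegular_of (sumRep ρ) inputs hG.bracket hG.nondeg hL hLG hr hN hA

end two

section three

variable {Γ : Type} [Group Γ] [TopologicalSpace Γ] {ι : Type} [Fintype ι] [DecidableEq ι]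
  {n : ι → ℕ} {ρ : ∀ (ℓ : ℕ) [Fact ℓ.Prime], Reps Γ n ℓ}
  {𝔤 : ∀ (ℓ : ℕ) [Fact ℓ.Prime], EndSpace n ℓ}

/-- It is strongly regular for all `ℓ`. -/
theorem regular_of_shape {e : FrobeniusElement ρ 𝔤} {r : ℕ} (hA : ShapeOne r e.A) {ℓ : ℕ}
    [Fact ℓ.Prime] (hG : Motivic (ρ ℓ) (𝔤 ℓ)) (hr : HasRank (𝔤 ℓ) r) (hℓ : ℓ ∉ e.bad) :
    IsStronglyRegular (ρ ℓ) (𝔤 ℓ) e.γ := by
  obtain ⟨j⟩ := exists_emb ℓ
  refine ⟨j, ?_⟩
  let _ : Algebra ℚ_[ℓ] ℂ := j.toAlgebra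
  obtain ⟨hN, hA'⟩ := e.adjoint ℓ hℓ
  have h1 : ShapeOne r (adjointPoly (sumRep (ρ ℓ)) hN) := by
    rw [hA']
    exact hA.map _
  exact regular_local (ρ ℓ) hG hr hN h1

end three

end Pool.Agent.H853.RG
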