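import Pool.Agent.H853.RG.Fro
import Pool.Agent.H853.OS.Sys

/-!
# General properties of the systems of realizations of motives
-/

set_option autoImplicit false

namespace Pool.Agent.H853.RG

open Module Polynomial Pool.Agent.Y114.TF Pool.Agent.Y114.RM Pool.Agent.H853.OS

section defs

variable {Γ : Type} [Group Γ] {ι : Type} {n : ι → ℕ}
  (ρ : ∀ (ℓ : ℕ) [Fact ℓ.Prime], Reps Γ n ℓ) (𝔤 : ∀ (ℓ : ℕ) [Fact ℓ.Prime], EndSpace n ℓ)

/-- No element is given: the rank of `𝔤 ℓ` does not depend on `ℓ`; some element with rational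
characteristic polynomials is pure of the weights `w i`; the scalars in `𝔤 ℓ` are the multiples of the
weight operator; and the Frobenius elements as in `FrobeniusElement`, which act also on `𝔤 ℓ` with
rational characteristic polynomials, independent of `ℓ`, are dense (see `DenseAt`; `ℓ₀` is not
exceptional). -/
structure Uniform [Finite ι] [TopologicalSpace Γ] (w : ι → ℤ) (ℓ₀ : ℕ) : Prop where
  rank : SameRank 𝔤
  pure : ∃ (e : Element ρ) (q : ℕ), 1 < q ∧ ∀ i, ∀ z : ℂ, aeval z (e.P i) = 0 →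
    ‖z‖ ^ 2 = (q : ℝ) ^ w i
  weights : ∀ (ℓ : ℕ) [Fact ℓ.Prime], ScalarsAreWeights (𝔤 ℓ) w
  dense : DenseAt ρ 𝔤 ℓ₀

end defs

end Pool.Agent.H853.RG
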