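import Pool.Agent.H853.RG.Mai

/-!
# Semisimplicity from the Mumford-Tate conjecture at one prime: the density
-/

set_option autoImplicit false
set_option linter.unusedSectionVars false

namespace Pool.Agent.H853.RG

open Module Polynomial Pool.Agent.Y114.TF Pool.Agent.Y114.GF Pool.Agent.Y114.MU Pool.Agent.Y114.RM
  Pool.Agent.H204R3.GP Pool.Agent.NH34.BD Pool.Agent.H853.SR Pool.Agent.H853.CC
  Pool.Agent.W522.C Pool.Agent.H853.OS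

theorem decide_local {Γ : Type} [Group Γ] [TopologicalSpace Γ] [IsTopologicalGroup Γ]
    [CompactSpace Γ] {ι : Type} [Fintype ι] [DecidableEq ι] {n : ι → ℕ} {ℓ : ℕ} [Fact ℓ.Prime]
    (ρ : Reps Γ n ℓ) (hρ : Conts ρ) (𝔤 : EndSpace n ℓ) (h𝔤 : Motivic ρ 𝔤) (γ : Γ)
    (hγ : IsStronglyRegular ρ 𝔤 γ) (hss : Semisimple ρ) : EndomorphismsAndCentreDecide ρ 𝔤 := by
  obtain ⟨j, hj⟩ := hγ
  let _ : Algebra ℚ_[ℓ] ℂ := j.toAlgebra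
  have hγ' : StronglyRegular (sumRep ρ) 𝔤 γ := hj
  obtain ⟨L, hL, hLie, hAd, -⟩ :=
    inputs.lie ℚ_[ℓ] (∀ i, Fin (n i) → ℚ_[ℓ]) _ (sumRep ρ)
  have hLG : L ≤ 𝔤 := fun X hX =>
    IsMotivic.algebraic h𝔤 X fun m φ hφ => ((hL X).1 hX).2 m φ (IsMotivic.tate h𝔤 m φ hφ)
  have hmain := local_main (sumRep ρ) inputs inputs2 hss hL hLie hAd (IsMotivic.bracket h𝔤)
    (IsMotivic.algebraic h𝔤) hLG γ hγ'
  obtain ⟨Δ', hΔ', hcomm⟩ := inputs2.tfr ℓ ι n _ ρ hρ (comm L) (comm_conj (sumRep ρ) hAd)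
    (comm_order (sumRep ρ) inputs inputs2 hL)
  have hc1 : ∀ X, CommutesWithTate (sumRep ρ) X → ∀ Y ∈ comm L, X * Y = Y * X := fun X hX Y hY =>
    hX Y ⟨Δ', hΔ', fun γ hγ => (hcomm γ hγ Y hY).symm⟩
  refine ⟨fun h => ⟨?_, fun Z hZ _ m φ hφ => (h m φ).1 hφ Z hZ⟩, ?_⟩
  · rintro X hX Y ⟨Δ, hΔ, hY⟩
    exact tate_comm (sumRep ρ) (fun m φ hφ => (h m φ).1 hφ X hX) hΔ hY
  · rintro ⟨hE, hC⟩ m φ
    refine ⟨fun hφ X hX => ?_, IsMotivic.tate h𝔤 m φ⟩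
    obtain ⟨x, hx, z, hz, rfl⟩ := hmain X ⟨hX, hc1 X (hE X hX)⟩
    exact kills_add (((hL x).1 hx).2 m φ hφ)
      (hC z hz.1.1 (fun Y hY => hz.2 Y ⟨hY, hc1 Y (hE Y hY)⟩) m φ hφ)

theorem good_local {Γ : Type} [Group Γ] [TopologicalSpace Γ] [IsTopologicalGroup Γ]
    [CompactSpace Γ] {ι : Type} [Fintype ι] [DecidableEq ι] {n : ι → ℕ} {ℓ : ℕ} [Fact ℓ.Prime]
    (ρ : Reps Γ n ℓ) (hρ : Conts ρ) (𝔤 : EndSpace n ℓ) (h𝔤 : Motivic ρ 𝔤) (γ : Γ)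
    (hγ : IsStronglyRegular ρ 𝔤 γ) (hc : InvConj ρ γ) : Good ρ 𝔤 := by
  have hss : Semisimple ρ := by
    obtain ⟨j, hj⟩ := hγ
    let _ : Algebra ℚ_[ℓ] ℂ := j.toAlgebra
    exact semisimple_local inputs inputs2 ρ hρ 𝔤 h𝔤 γ hj hc
  exact ⟨hss, decide_local ρ hρ 𝔤 h𝔤 γ hγ hss⟩

section

variable {Γ : Type} [Group Γ] [TopologicalSpace Γ] [IsTopologicalGroup Γ] [CompactSpace Γ]
  {ι : Type} [Fintype ι] [DecidableEq ι] {n : ι → ℕ}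

theorem one_element (ρ : ∀ (ℓ : ℕ) [Fact ℓ.Prime], Reps Γ n ℓ)
    (hρ : ∀ (ℓ : ℕ) [Fact ℓ.Prime], Conts (ρ ℓ))
    (𝔤 : ∀ (ℓ : ℕ) [Fact ℓ.Prime], EndSpace n ℓ)
    (h𝔤 : ∀ (ℓ : ℕ) [Fact ℓ.Prime], Motivic (ρ ℓ) (𝔤 ℓ)) (e : FrobeniusElement ρ 𝔤)
    (hreg : ∀ (ℓ : ℕ) [Fact ℓ.Prime], ℓ ∉ e.bad → IsStronglyRegular (ρ ℓ) (𝔤 ℓ) e.γ) :
    LowerDensity {ℓ | ∃ _ : Fact ℓ.Prime, Good (ρ ℓ) (𝔤 ℓ)} (1 / (∑ i, n i).factorial) := by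
  have hP0 := ne_zero_of_char e.charpoly
  obtain ⟨Q, b, hb, hQ, hQ0, hfield⟩ := exists_SF e.P hP0
  have hdeg : Module.finrank ℚ (SF (∏ i, Q i)) ≤ (∑ i, n i).factorial := by
    have hgal : @IsGalois ℚ _ (SF (∏ i, Q i)) _ (IntermediateField.algebra' (SF (∏ i, Q i))) :=
      isGalois_trans _ _ (galSF _)
    have hfd : FiniteDimensional ℚ
        (IntermediateField.adjoin ℚ {z : ℂ | ∃ i, aeval z (e.P i) = 0}) := by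
      rw [hfield]
      infer_instance
    have h6 := gsz_field_le e.P hP0
    rw [Finset.sum_congr rfl fun i _ => natDegree_P ⟨e.γ, e.P, e.bad, e.charpoly⟩ i, hfield] at h6
    refine le_trans (le_of_eq ?_) h6
    unfold gsz
    rw [IsGalois.card_aut_eq_finrank]
  have h1 := density_family (J := Unit) (fun _ => ∏ i, Q i) (fun _ => e.bad) (SF (∏ i, Q i))
    inferInstance (isGalois_trans _ _ (galSF _)) (B := (∑ i, n i).factorial) (fun _ => hdeg)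
    (fun M _ => ⟨(), inf_le_left⟩)
  have h2 : LowerDensity {ℓ | ∃ _ : Fact ℓ.Prime, Good (ρ ℓ) (𝔤 ℓ)}
      (1 / Module.finrank ℚ (SF (∏ i, Q i))) := by
    refine h1.mono ?_
    rintro ℓ hℓ ⟨h2, -, hw, h3⟩
    refine ⟨⟨h2⟩, ?_⟩
    have : Fact ℓ.Prime := ⟨h2⟩
    exact good_local (ρ ℓ) (hρ ℓ) (𝔤 ℓ) (h𝔤 ℓ) e.γ (hreg ℓ hw)
      (invConj_of_lift hb hQ hQ0 (e.charpoly ℓ hw) e.pure h3)
  refine h2.le ?_
  have hpos : 0 < Module.finrank ℚ (SF (∏ i, Q i)) := Module.finrank_pos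
  refine one_div_le_one_div_of_le (by exact_mod_cast hpos) ?_
  exact_mod_cast hdeg

end

end Pool.Agent.H853.RG
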