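import Pool.Agent.H853.RG.One
import Pool.Agent.H853.RG.Res
import Pool.Agent.H853.OP.Mai

/-!
# Frobenius elements in general position exist, if the Mumford-Tate conjecture is known at one prime
-/

set_option autoImplicit false
set_option linter.unusedSectionVars false

namespace Pool.Agent.H853.RG

open Module Polynomial Pool.Agent.Y114.TF Pool.Agent.Y114.RM Pool.Agent.H853.OS
  Pool.Agent.W522.C

section res

variable {Γ : Type} [Group Γ] [TopologicalSpace Γ] [IsTopologicalGroup Γ] [CompactSpace Γ]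
  {ι : Type} [Fintype ι] [DecidableEq ι] {n : ι → ℕ}
  {ρ : ∀ (ℓ : ℕ) [Fact ℓ.Prime], Reps Γ n ℓ} {𝔤 : ∀ (ℓ : ℕ) [Fact ℓ.Prime], EndSpace n ℓ}

/-- The strongly regular element. -/
theorem regular_of_uniform (hρ : ∀ (ℓ : ℕ) [Fact ℓ.Prime], Conts (ρ ℓ))
    (h𝔤 : ∀ (ℓ : ℕ) [Fact ℓ.Prime], Motivic (ρ ℓ) (𝔤 ℓ)) {w : ι → ℤ} {ℓ₀ : ℕ} [Fact ℓ₀.Prime]
    (hMT : Pool.Agent.H853.OP.LieMumfordTate (ρ ℓ₀) (𝔤 ℓ₀)) (h : Uniform ρ 𝔤 w ℓ₀) :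
    Regular ρ 𝔤 w := by
  obtain ⟨r, hr⟩ := h.rank
  obtain ⟨e, he⟩ := exists_element (hρ ℓ₀) (h𝔤 ℓ₀) (hr ℓ₀) h.dense hMT
  exact ⟨⟨⟨e.γ, e.P, e.bad, e.charpoly⟩, fun ℓ _ hℓ => regular_of_shape he (h𝔤 ℓ) (hr ℓ) hℓ⟩,
    h.pure, h.weights⟩

end res

end Pool.Agent.H853.RG
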