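import Pool.Agent.H853.RG.Bas
import Mathlib.Algebra.Lie.CartanExists
import Mathlib.Algebra.Lie.TraceForm

/-!
# The generalized centralizer of a regular element is commutative
-/

set_option autoImplicit false
set_option linter.unusedSectionVars false

namespace Pool.Agent.H853.RG

open Module Polynomial TensorProduct Pool.Agent.Y114.RM Pool.Agent.H853.SR LieAlgebra LieSubalgebra

attribute [local instance 100] LieRing.ofAssociativeRing
attribute [local instance 100] LieAlgebra.ofAssociativeAlgebra

variable {K : Type} [Field K] {V : Type} [AddCommGroup V] [Module K V]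

variable [FiniteDimensional K V] {G : Submodule K (End K V)}

/-- `G` as a Lie algebra. -/
noncomputable def lieOf (hG : IsLie G) : LieSubalgebra K (End K V) :=
  { G with lie_mem' := fun {x y} hx hy => hG x hx y hy }

theorem mem_lieOf (hG : IsLie G) {x : End K V} : x ∈ lieOf hG ↔ x ∈ G := Iff.rfl

theorem ad_pow_coe (hG : IsLie G) (x y : lieOf hG) (n : ℕ) :
    ((((ad K (lieOf hG) x) ^ n) y : lieOf hG) : End K V) = ((adE (x : End K V)) ^ n) y := by
  induction n generalizing y with
  | zero => rfl
  | succ n ih =>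
    rw [pow_succ, pow_succ, Module.End.mul_apply, Module.End.mul_apply, ih]
    rfl

theorem mem_engel (hG : IsLie G) (x y : lieOf hG) :
    y ∈ engel K x ↔ (y : End K V) ∈ nilp G x := by
  rw [mem_engel_iff, nilp, Submodule.mem_inf, Module.End.mem_maxGenEigenspace]
  constructor
  · rintro ⟨n, hn⟩
    refine ⟨y.2, n, ?_⟩
    rw [zero_smul, sub_zero, ← ad_pow_coe hG, hn]
    rfl
  · rintro ⟨-, n, hn⟩
    refine ⟨n, Subtype.ext ?_⟩
    rw [ad_pow_coe hG]
    rw [zero_smul, sub_zero] at hn
    exact hn

theorem finrank_engel_eq (hG : IsLie G) (x : lieOf hG) :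
    finrank K (engel K x) = finrank K (nilp G (x : End K V)) := by
  have h1 : nilp G (x : End K V) = (engel K x).toSubmodule.map (lieOf hG).toSubmodule.subtype := by
    ext y
    constructor
    · intro hy
      exact ⟨⟨y, hy.1⟩, (mem_engel hG x ⟨y, hy.1⟩).2 hy, rfl⟩
    · rintro ⟨z, hz, rfl⟩
      exact (mem_engel hG x z).1 hz
  rw [h1]
  exact (Submodule.finrank_map_subtype_eq _ _).symm

theorem nilpotent_engel [Infinite K] (hG : IsLie G) (x : lieOf hG)
    (hmin : ∀ y ∈ G, finrank K (nilp G (x : End K V)) ≤ finrank K (nilp G y)) :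
    LieRing.IsNilpotent (engel K x) := by
  have h : (finrank K (lieOf hG) : Cardinal) ≤ Cardinal.mk K :=
    Cardinal.natCast_le_aleph0.trans <| Cardinal.infinite_iff.mp ‹Infinite K›
  apply isNilpotent_of_forall_le_engel
  intro y hy
  set Ex : {engel K z | z ∈ engel K x} := ⟨engel K x, x, self_mem_engel _ _, rfl⟩
  suffices IsBot Ex from @this ⟨engel K y, y, hy, rfl⟩
  apply engel_isBot_of_isMin h (engel K x) Ex le_rfl
  rintro ⟨_, y, hy, rfl⟩ hyx
  suffices finrank K (engel K x) ≤ finrank K (engel K y) by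
    suffices engel K y = engel K x from this.ge
    apply LieSubalgebra.toSubmodule_injective
    exact Submodule.eq_of_le_of_finrank_le hyx this
  rw [finrank_engel_eq, finrank_engel_eq]
  exact hmin y y.2

theorem tr_ad (x a b : End K V) :
    LinearMap.trace K V (a * adE x b) = -LinearMap.trace K V (adE x a * b) := by
  rw [adE_apply, adE_apply, ← map_neg]
  have e1 : LinearMap.trace K V (a * (x * b)) = LinearMap.trace K V (a * x * b) := by
    rw [mul_assoc]
  have e2 : LinearMap.trace K V (a * (b * x)) = LinearMap.trace K V (x * a * b) := by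
    rw [← mul_assoc, LinearMap.trace_mul_comm, mul_assoc]
  have e3 : -((x * a - a * x) * b) = a * x * b - x * a * b := by noncomm_ring
  rw [mul_sub, map_sub, e1, e2, e3, map_sub]

theorem tr_ad_pow (x a b : End K V) (n : ℕ) :
    LinearMap.trace K V (a * ((adE x) ^ n) b) =
      (-1) ^ n * LinearMap.trace K V (((adE x) ^ n) a * b) := by
  induction n generalizing a b with
  | zero => simp
  | succ n ih =>
    rw [pow_succ, Module.End.mul_apply, ih, ← pow_succ, pow_succ' (adE x), Module.End.mul_apply,
      tr_ad, pow_succ]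
    ring

/-- The trace form is nondegenerate on the generalized centralizers. -/
theorem nonDeg_nilp (hG : IsLie G) (hND : NonDeg G) {x : End K V} (hx : x ∈ G) :
    NonDeg (nilp G x) := by
  have hst : ∀ Y ∈ G, adE x Y ∈ G := fun Y hY => hG x hx Y hY
  set f : End K G := (adE x).restrict hst with hf
  have hfn : ∀ (n : ℕ) (y : G), (((f ^ n) y : G) : End K V) = ((adE x) ^ n) y := by
    intro n
    induction n with
    | zero => intro y; rfl
    | succ n ih =>
      intro y
      rw [pow_succ, pow_succ, Module.End.mul_apply, Module.End.mul_apply, ih]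
      rfl
  intro a ha h
  obtain ⟨haG, m, hm⟩ := (by
    rw [nilp, Submodule.mem_inf, Module.End.mem_maxGenEigenspace] at ha
    exact ha : a ∈ G ∧ ∃ m : ℕ, ((adE x - (0 : K) • (1 : End K (End K V))) ^ m) a = 0)
  rw [zero_smul, sub_zero] at hm
  obtain ⟨N, hN1, hN2⟩ := ((LinearMap.eventually_isCompl_ker_pow_range_pow f).and
    (Filter.eventually_ge_atTop m)).exists
  apply hND a haG
  intro Y hY
  have h1 : (⟨Y, hY⟩ : G) ∈ LinearMap.ker (f ^ N) ⊔ LinearMap.range (f ^ N) := by
    rw [hN1.sup_eq_top]
    exact Submodule.mem_top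
  obtain ⟨u, hu, v, ⟨w, rfl⟩, huv⟩ := Submodule.mem_sup.1 h1
  have h2 : Y = (u : End K V) + ((adE x) ^ N) w := by
    have h3 := congrArg Subtype.val huv
    rw [← hfn]
    exact h3.symm
  have h4 : LinearMap.trace K V (a * u) = 0 := by
    refine h _ ⟨u.2, ?_⟩
    rw [SetLike.mem_coe, Module.End.mem_maxGenEigenspace]
    refine ⟨N, ?_⟩
    rw [zero_smul, sub_zero, ← hfn, LinearMap.mem_ker.1 hu]
    rfl
  have h5 : ((adE x) ^ N) a = 0 := by
    obtain ⟨d, rfl⟩ := Nat.exists_eq_add_of_le hN2
    rw [add_comm, pow_add, Module.End.mul_apply, hm, map_zero]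
  rw [h2, mul_add, map_add, h4, tr_ad_pow, h5, zero_mul, map_zero, mul_zero, add_zero]

/-- **The generalized centralizer of a regular element is commutative.** -/
theorem comm_of_min [CharZero K] (hG : IsLie G) (hND : NonDeg G) {x : End K V} (hx : x ∈ G)
    (hmin : ∀ y ∈ G, finrank K (nilp G x) ≤ finrank K (nilp G y)) :
    ∀ a ∈ nilp G x, ∀ b ∈ nilp G x, a * b = b * a := by
  have : Infinite K := inferInstance
  let x' : lieOf hG := ⟨x, hx⟩
  have hnil : LieRing.IsNilpotent (engel K x') := nilpotent_engel hG x' hmin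
  have hker : LinearMap.ker (LieModule.traceForm K (engel K x') V) = ⊥ := by
    rw [LinearMap.ker_eq_bot']
    rintro a ha
    have h0 : ((a : lieOf hG) : End K V) = 0 := by
      refine nonDeg_nilp hG hND hx _ ((mem_engel hG x' a).1 a.2) fun b hb => ?_
      have hb' : (⟨b, hb.1⟩ : lieOf hG) ∈ engel K x' := (mem_engel hG x' _).2 hb
      have h1 := LinearMap.congr_fun ha ⟨⟨b, hb.1⟩, hb'⟩
      rw [LieModule.traceForm_apply_apply, LinearMap.zero_apply] at h1
      exact h1
    exact Subtype.ext (Subtype.ext h0)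
  have hab := LieModule.isLieAbelian_of_ker_traceForm_eq_bot (R := K) (L := engel K x') (M := V) hker
  intro a ha b hb
  have ha' : (⟨a, ha.1⟩ : lieOf hG) ∈ engel K x' := (mem_engel hG x' _).2 ha
  have hb' : (⟨b, hb.1⟩ : lieOf hG) ∈ engel K x' := (mem_engel hG x' _).2 hb
  have h1 : ⁅(⟨⟨a, ha.1⟩, ha'⟩ : engel K x'), (⟨⟨b, hb.1⟩, hb'⟩ : engel K x')⁆ = 0 :=
    trivial_lie_zero _ _ _ _
  have h2 := congrArg (fun z : engel K x' => ((z : lieOf hG) : End K V)) h1
  exact sub_eq_zero.1 h2

end Pool.Agent.H853.RG
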