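import Pool.Agent.H853.RG.Exi

/-!
# The generalized eigenspace for the eigenvalue one of a conjugation
-/

set_option autoImplicit false
set_option linter.unusedSectionVars false

namespace Pool.Agent.H853.RG

open Module Polynomial TensorProduct Pool.Agent.TH118.SG Pool.Agent.Y114.RM Pool.Agent.Y212.RM
  Pool.Agent.H853.SR Pool.Agent.NH34.BD

section complex

variable {W : Type} [AddCommGroup W] [Module ℂ W] [FiniteDimensional ℂ W]

/-- A generic element of the torus of `g`. -/
theorem exists_torus_elt {g g' : End ℂ W} {G : Submodule ℂ (End ℂ W)} (T : TF g g' G)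
    (htor : tor g ≤ G) : ∃ D ∈ G,
      G ⊓ (AdE g g').maxGenEigenspace 1 = nilp G D := by
  classical
  -- the eigenvalues
  let ev : Set ℂ := {β | β ≠ 1 ∧ β ≠ 0 ∧ ∃ X ∈ G, X ≠ 0 ∧ X ∈ (AdE g g').maxGenEigenspace β}
  have hfin : ev.Finite := by
    refine (Module.End.finite_hasEigenvalue (AdE g g')).subset ?_
    rintro β ⟨-, -, X, hX, hX0, hXβ⟩
    refine Module.End.hasEigenvalue_of_hasGenEigenvalue (k := finrank ℂ (End ℂ W)) ?_
    rw [Module.End.HasGenEigenvalue, Module.End.HasUnifEigenvalue]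
    intro h0
    rw [Module.End.maxGenEigenspace_eq_genEigenspace_finrank, h0] at hXβ
    exact hX0 hXβ
  have : Finite ev := hfin
  let φ : ev → (Additive ℂˣ →+ ℂ) →ₗ[ℂ] ℂ := fun β =>
    { toFun := fun θ => ext0 θ β
      map_add' := fun θ θ' => by
        rw [ext0_ne θ β.2.2.1, ext0_ne θ' β.2.2.1, ext0_ne (θ + θ') β.2.2.1]
        rfl
      map_smul' := fun c θ => by
        rw [ext0_ne θ β.2.2.1, ext0_ne (c • θ) β.2.2.1]
        rfl }
  obtain ⟨θ, hθ⟩ := exists_avoid (k := ℂ) φ (by
    rintro ⟨β, h1, h0, X, hX, hX0, hXβ⟩ hcon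
    obtain ⟨θ, hθ⟩ := exists_theta h0 (fun m hm hβ => hX0 (T.tf β h1 m hm hβ X hX hXβ))
    exact hθ (LinearMap.congr_fun hcon θ))
  obtain ⟨D, hD⟩ := TH118.SG.exists_op g (fun z => ext0 θ z)
  have hDt : D ∈ tor g := ⟨θ, hD⟩
  refine ⟨D, htor hDt, le_antisymm ?_ ?_⟩
  · rintro X ⟨hX, hX1⟩
    refine ⟨hX, ?_⟩
    rw [SetLike.mem_coe, Module.End.mem_maxGenEigenspace]
    refine ⟨1, ?_⟩
    have h1 := tor_gen T.inv T.inv' hD hX1
    rw [ext0_one, zero_smul] at h1
    rw [pow_one]
    change (D * X - X * D) - (0 : ℂ) • X = 0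
    rw [h1, zero_smul, sub_zero]
  · -- stability
    have hDg : D * g = g * D := tor_comm_g hDt
    have hDg' : D * g' = g' * D := by
      calc D * g' = (g' * g) * (D * g') := by rw [T.inv', one_mul]
        _ = g' * (g * D) * g' := by noncomm_ring
        _ = g' * (D * g) * g' := by rw [hDg]
        _ = g' * D * (g * g') := by noncomm_ring
        _ = g' * D := by rw [T.inv, mul_one]
    have hcomm : ∀ X, adE D (AdE g g' X) = AdE g g' (adE D X) := by
      intro X
      rw [adE_apply, adE_apply, AdE_apply, AdE_apply]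
      calc D * (g * (X * g')) - g * (X * g') * D = (D * g) * X * g' - g * X * (g' * D) := by
            noncomm_ring
        _ = g * ((D * X - X * D) * g') := by rw [hDg, ← hDg']; noncomm_ring
    have hst : ∀ X ∈ nilp G D, AdE g g' X ∈ nilp G D := by
      rintro X ⟨hX, hX0⟩
      refine ⟨T.stable X hX, ?_⟩
      rw [SetLike.mem_coe, Module.End.mem_maxGenEigenspace] at hX0 ⊢
      obtain ⟨n, hn⟩ := hX0
      refine ⟨n, ?_⟩
      have h1 : ∀ (n : ℕ) (X : End ℂ W), ((adE D - (0 : ℂ) • (1 : End ℂ (End ℂ W))) ^ n)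
          (AdE g g' X) = AdE g g' (((adE D - (0 : ℂ) • (1 : End ℂ (End ℂ W))) ^ n) X) := by
        intro n
        induction n with
        | zero => intro X; rfl
        | succ n ih =>
          intro X
          rw [pow_succ, Module.End.mul_apply, Module.End.mul_apply]
          have h2 : (adE D - (0 : ℂ) • (1 : End ℂ (End ℂ W))) (AdE g g' X) =
              AdE g g' ((adE D - (0 : ℂ) • (1 : End ℂ (End ℂ W))) X) := by
            change adE D (AdE g g' X) - (0 : ℂ) • (AdE g g' X) =
              AdE g g' (adE D X - (0 : ℂ) • X)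
            rw [hcomm, zero_smul, zero_smul, sub_zero, sub_zero]
          rw [h2, ih]
      rw [h1, hn, map_zero]
    refine fun X hX => ⟨hX.1, ?_⟩
    refine ind_gen hst (P := fun X => X ∈ (AdE g g').maxGenEigenspace 1) (Submodule.zero_mem _)
      (fun X Y hX hY => Submodule.add_mem _ hX hY) ?_ X hX
    rintro β X ⟨hX, hX0⟩ hβ
    by_cases h1 : β = 1
    · rw [h1] at hβ; exact hβ
    by_cases h0 : β = 0
    · rw [h0] at hβ
      rw [gen_zero_ev T.inv T.inv' hβ]
      exact Submodule.zero_mem _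
    by_cases hX' : X = 0
    · rw [hX']; exact Submodule.zero_mem _
    exfalso
    have h2 : ext0 θ β ≠ 0 := hθ ⟨β, h1, h0, X, hX, hX', hβ⟩
    have h3 : adE D X = ext0 θ β • X := tor_gen T.inv T.inv' hD hβ
    rw [SetLike.mem_coe, Module.End.mem_maxGenEigenspace] at hX0
    obtain ⟨n, hn⟩ := hX0
    have h4 : ∀ n : ℕ, ((adE D - (0 : ℂ) • (1 : End ℂ (End ℂ W))) ^ n) X = (ext0 θ β) ^ n • X := by
      intro n
      induction n with
      | zero => rw [pow_zero, pow_zero, one_smul]; rfl
      | succ n ih =>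
        rw [pow_succ, Module.End.mul_apply]
        have h5 : (adE D - (0 : ℂ) • (1 : End ℂ (End ℂ W))) X = ext0 θ β • X := by
          change adE D X - (0 : ℂ) • X = _
          rw [h3, zero_smul, sub_zero]
        rw [h5, map_smul, ih, smul_smul, pow_succ']
    rw [h4] at hn
    exact hX' ((smul_eq_zero.1 hn).resolve_left (pow_ne_zero _ h2))

end complex

end Pool.Agent.H853.RG
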