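import Pool.Agent.H853.RG.Res

/-!
# Semisimplicity at a positive proportion of the primes from the Mumford-Tate conjecture at ONE prime

Let `M i` be finitely many pure motives over a finitely generated field `k` of characteristic zero
(objects of the category of André), `Γ` the absolute Galois group of `k`, `ρ ℓ i` its action on the
`ℓ`-adic realization of `M i` (of dimension `n i`), and `𝔤 ℓ` the Lie algebra (over `ℚ_ℓ`) of the motivic
Galois group `G` of the sum of the `M i` over the algebraic closure of `k`, in its `ℓ`-adic realization:
the `ℓ`-adic realization of the adjoint motive.  The property `Motivic (ρ ℓ) (𝔤 ℓ)` (structure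
`IsMotivic`, from the library) states the properties which are used: `𝔤 ℓ` is a Lie algebra, it respects
the direct sum, it is reductive (trace form nondegenerate, completely reducible), it consists of all
endomorphisms which kill the tensors killed by `𝔤 ℓ`, and these tensors are Tate tensors (fixed by a
subgroup of finite index of `Γ`).  Nothing is assumed on the type of `G`, on the Hodge numbers, on the
weights or on polarisations; NO semisimplicity is assumed, no strongly regular Frobenius element is
given, and the Mumford-Tate conjecture is not assumed for all `ℓ`.

The system has three properties.  The rank of the Lie algebra `𝔤 ℓ` does not depend on `ℓ` (the `𝔤 ℓ` are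
the extensions of one Lie algebra over `ℚ`).  The elements `γ` of `Γ` (the Frobenius elements at the
places of good reduction which do not divide a prime `ℓ₀`) which act with rational characteristic
polynomials, independent of `ℓ` outside a finite set which does not contain `ℓ₀`, pure on each `M i`, on
the `M i` and on the adjoint motive, are dense in `Γ`.  (For the adjoint motive this is automatic if `𝔤` is
a direct factor, by algebraic correspondences, of the tensor motives of the `M i`, for instance for the
symplectic, orthogonal and linear Lie algebras.)  And the Mumford-Tate conjecture (for the Lie algebras)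
is known at the ONE prime `ℓ₀`: all elements of `𝔤 ℓ₀` are tangent vectors of the image of `Γ`.

Theorem.  (1) There is ONE element `γ` (a Frobenius element) as above which is strongly regular for
all `ℓ` outside a finite set: the centralizer of its semisimple part in `𝔤 ℓ ⊗ ℂ` is a Cartan subalgebra,
the values of the roots at `γ` are pairwise different, and they are not roots of unity.  Hence for all
these `ℓ`: if the `ℓ`-adic realization is semisimple, then the Tate tensors are those killed by `𝔤 ℓ` (the
Tate conjecture for motivated cycles, for the sum of the `M i` and all its tensor powers over all finite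
extensions of `k`) if and only if this is true for endomorphisms and for the centre of `𝔤 ℓ`.

(2) For a set of primes `ℓ` of lower density at least `1 / (∑ n i)!`, the `ℓ`-adic realizations of all
`M i` are semisimple (for `Γ` and all its subgroups of finite index), and the equivalence of (1) holds.

So, over every finitely generated field and for motives of all types, the Mumford-Tate conjecture at one
prime implies the conjecture of Grothendieck and Serre on the semisimplicity at a positive proportion of
the primes.  (1) says in particular that the algebraic monodromy groups at almost all primes contain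
maximal tori of `G`, if this is true at one prime for the group `G` itself.

In comparison: if `k = ℚ` (or if the places above some prime are independent), more is known by the
library modules `MP_8f1292_ag.MaximalFrobeniusTorus`, `MP_b8862a_ag.EndomorphismsSuffice` and
`MP_8f1292_ag.SemisimpleAtEveryPrime` together with the theorem of Serre on maximal Frobenius tori (which
uses the integrality of the eigenvalues): semisimplicity at all `ℓ`.  For other fields these modules
need conditions on the places or on the field (no CM field), because of the Hecke characters of CM type;
here there is no condition on `k`, and the theorem of Serre is not used.  The module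
`MP_c184fc_ag.StronglyRegularDensity` of the same author assumes that a strongly regular element is
given, with its regularity at all `ℓ`; here it is constructed from one prime.  The module
`MP_b8862a_ag.OnePrime` of the same author assumes a strongly regular element, or one of maximal rank, and
types of orbits on eigenvalues, and proves the whole Mumford-Tate conjecture; here no condition on the
types of orbits is needed.

The proof.  Let `x` be an element of `𝔤 ℓ₀` which is regular, with different values of the roots: it
exists because a Cartan subalgebra of `𝔤 ℓ₀` over `ℚ_ℓ₀` is a torus (its elements are semisimple, as `𝔤`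
contains the parts of the Jordan decomposition and is reductive) on which the values of the roots can be
made different.  By the Mumford-Tate conjecture at `ℓ₀` and the density there is a Frobenius element `γ`
such that `(ρ(γ) - 1) / t` is close to `x`, with `t` small.  The characteristic polynomial of `γ` on
`𝔤 ℓ₀` is then, up to the substitution `1 + t T`, close to that of `ad x`.  The multiplicity of the
eigenvalue `1` cannot become smaller than the rank, because the eigenvalues of `γ` on `𝔤` generate a group
without torsion (they are close to `1`), so that the torus of `γ` is contained in `𝔤 ℓ₀ ⊗ ℂ` and has the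
same centralizer as `γ`; thus the other eigenvalues of `γ` are simple and not roots of unity.  This is a
property of the polynomial `A` in `ℚ[T]`, and it holds at all `ℓ`: by the same reason the centralizer of
`γ` in `𝔤 ℓ ⊗ ℂ` has the dimension of the rank, hence is a maximal torus.  Then the theorem on strongly
regular elements is applied at the primes at which the complex conjugation of the field of the
eigenvalues of `γ` is in a decomposition group (theorem of Frobenius and Chebotarev, in the library); the
use of the complex conjugation in a decomposition group is due to Patrikis and Taylor.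
-/

set_option autoImplicit false

namespace Pool.Agent.H853.RG.SemisimpleFromOnePrime

open Pool.Agent.Y114.TF Pool.Agent.Y114.RM Pool.Agent.H853.RG Pool.Agent.Y114.MU Pool.Agent.W522.C
  Pool.Agent.H204R3.GP

theorem result {Γ : Type} [Group Γ] [TopologicalSpace Γ] [IsTopologicalGroup Γ] [CompactSpace Γ]
    {ι : Type} [Fintype ι] [DecidableEq ι] {n : ι → ℕ}
    -- the `ℓ`-adic realizations, and the Lie algebras of the motivic Galois group, for all `ℓ`
    (ρ : ∀ (ℓ : ℕ) [Fact ℓ.Prime], Reps Γ n ℓ) (hρ : ∀ (ℓ : ℕ) [Fact ℓ.Prime], Conts (ρ ℓ))
    (𝔤 : ∀ (ℓ : ℕ) [Fact ℓ.Prime], EndSpace n ℓ)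
    (h𝔤 : ∀ (ℓ : ℕ) [Fact ℓ.Prime], Motivic (ρ ℓ) (𝔤 ℓ)) (hr : SameRank 𝔤)
    -- one prime
    {ℓ₀ : ℕ} [Fact ℓ₀.Prime] (hD : DenseAt ρ 𝔤 ℓ₀) (hMT : LieMumfordTate (ρ ℓ₀) (𝔤 ℓ₀)) :
    (∃ e : FrobeniusElement ρ 𝔤, ∀ (ℓ : ℕ) [Fact ℓ.Prime], ℓ ∉ e.bad →
      IsStronglyRegular (ρ ℓ) (𝔤 ℓ) e.γ ∧
        (Semisimple (ρ ℓ) → EndomorphismsAndCentreDecide (ρ ℓ) (𝔤 ℓ))) ∧
    LowerDensity {ℓ | ∃ _ : Fact ℓ.Prime, Good (ρ ℓ) (𝔤 ℓ)} (1 / (∑ i, n i).factorial) := by
  obtain ⟨r, hr⟩ := hr
  obtain ⟨e, he⟩ := exists_element (hρ ℓ₀) (h𝔤 ℓ₀) (hr ℓ₀) hD hMT
  have hreg : ∀ (ℓ : ℕ) [Fact ℓ.Prime], ℓ ∉ e.bad → IsStronglyRegular (ρ ℓ) (𝔤 ℓ) e.γ :=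
    fun ℓ _ hℓ => regular_of_shape he (h𝔤 ℓ) (hr ℓ) hℓ
  exact ⟨⟨e, fun ℓ _ hℓ => ⟨hreg ℓ hℓ, decide_local (ρ ℓ) (hρ ℓ) (𝔤 ℓ) (h𝔤 ℓ) e.γ (hreg ℓ hℓ)⟩⟩,
    one_element ρ hρ 𝔤 h𝔤 e hreg⟩

end Pool.Agent.H853.RG.SemisimpleFromOnePrime
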