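import Pool.Agent.H853.RG.Car
import Pool.Agent.H853.OP.Kra

/-!
# Characteristic polynomials of regular elements and of nearby elements
-/

set_option autoImplicit false
set_option linter.unusedSectionVars false

namespace Pool.Agent.H853.RG

open Module Polynomial TensorProduct Pool.Agent.Y114.RM Pool.Agent.H853.SR Pool.Agent.H853.OP
  Pool.Agent.Y809.RM.BC

section shape

variable {K : Type} [Field K]

/-- The root zero has the multiplicity `r`, the other roots are simple. -/
def Shape (r : ℕ) (P : K[X]) : Prop := ∃ S : K[X], P = X ^ r * S ∧ S.Separable ∧ S.eval 0 ≠ 0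

/-- The root one has the multiplicity `r`, the other roots are simple and not roots of unity. -/
def ShapeOne (r : ℕ) (P : K[X]) : Prop :=
  ∃ S : K[X], P = (X - 1) ^ r * S ∧ S.Separable ∧ ∀ m : ℕ, 0 < m → IsCoprime S (X ^ m - 1)

theorem shape_of_mult [Algebra K ℂ] {r : ℕ} {P : K[X]} (hP : P ≠ 0)
    (h0 : (P.map (algebraMap K ℂ)).rootMultiplicity 0 = r)
    (h1 : ∀ c : ℂ, c ≠ 0 → (P.map (algebraMap K ℂ)).rootMultiplicity c ≤ 1) : Shape r P := by
  have h2 : P.rootMultiplicity 0 = r := by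
    rw [← h0, eq_rootMultiplicity_map (algebraMap K ℂ).injective, map_zero]
  obtain ⟨S, hS, hS'⟩ := exists_eq_pow_rootMultiplicity_mul_and_not_dvd P hP 0
  rw [h2, map_zero, sub_zero] at hS
  have hS0 : S.eval 0 ≠ 0 := by
    intro h
    apply hS'
    exact dvd_iff_isRoot.2 h
  have hSne : S ≠ 0 := by
    rintro rfl
    exact hS0 eval_zero
  refine ⟨S, hS, ?_, hS0⟩
  have hmne : S.map (algebraMap K ℂ) ≠ 0 := (Polynomial.map_ne_zero_iff (algebraMap K ℂ).injective).2 hSne
  rw [← separable_map (algebraMap K ℂ), ← nodup_roots_iff_of_splits hmne (IsAlgClosed.splits _),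
    Multiset.nodup_iff_count_le_one]
  intro c
  rw [count_roots]
  by_cases hc : c = 0
  · rw [hc]
    have h3 : (S.map (algebraMap K ℂ)).rootMultiplicity 0 = 0 := by
      rw [rootMultiplicity_eq_zero_iff]
      intro h4
      have h5 : (S.map (algebraMap K ℂ)).eval (algebraMap K ℂ 0) = 0 := by rw [map_zero]; exact h4
      rw [eval_map_apply, map_eq_zero] at h5
      exact absurd h5 hS0
    rw [h3]
    exact zero_le_one
  · refine le_trans ?_ (h1 c hc)
    rw [hS, Polynomial.map_mul]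
    exact rootMultiplicity_le_rootMultiplicity_of_dvd
      (mul_ne_zero (by
        rw [Polynomial.map_pow, map_X]
        exact pow_ne_zero _ X_ne_zero) hmne) (dvd_mul_left _ _) c

variable {F : Type} [Field F] (j : K →+* F)

theorem ShapeOne.map {r : ℕ} {P : K[X]} (h : ShapeOne r P) : ShapeOne r (P.map j) := by
  obtain ⟨S, h1, h2, h3⟩ := h
  refine ⟨S.map j, ?_, h2.map, fun m hm => ?_⟩
  · rw [h1, Polynomial.map_mul, Polynomial.map_pow, Polynomial.map_sub, map_X, Polynomial.map_one]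
  · have h4 := (h3 m hm).map (mapRingHom j)
    simp only [coe_mapRingHom, Polynomial.map_sub, Polynomial.map_pow, map_X,
      Polynomial.map_one] at h4
    exact h4

theorem ShapeOne.of_map {r : ℕ} {P : K[X]} (hP : P ≠ 0) (h : ShapeOne r (P.map j)) :
    ShapeOne r P := by
  obtain ⟨S', h1, h2, h3⟩ := h
  have hmne : P.map j ≠ 0 := (Polynomial.map_ne_zero_iff j.injective).2 hP
  have hS'ne : S' ≠ 0 := by
    rintro rfl
    rw [mul_zero] at h1
    exact hmne h1
  have hev : S'.eval 1 ≠ 0 := by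
    intro h4
    have h5 := h3 1 one_pos
    rw [pow_one] at h5
    obtain ⟨a, b, hab⟩ := h5
    have h6 := congrArg (eval 1) hab
    rw [eval_add, eval_mul, eval_mul, h4, eval_sub, eval_X, eval_one, sub_self, mul_zero, mul_zero,
      add_zero] at h6
    exact zero_ne_one h6
  have hmul : P.rootMultiplicity 1 = r := by
    rw [eq_rootMultiplicity_map j.injective, map_one, h1]
    have h4 : (X - 1 : F[X]) = X - C 1 := by rw [map_one]
    rw [h4, rootMultiplicity_mul (mul_ne_zero (pow_ne_zero _ (X_sub_C_ne_zero 1)) hS'ne),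
      rootMultiplicity_X_sub_C_pow, rootMultiplicity_eq_zero (fun h => hev h), add_zero]
  obtain ⟨S, hS, -⟩ := exists_eq_pow_rootMultiplicity_mul_and_not_dvd P hP 1
  rw [hmul, map_one] at hS
  have hSS : S.map j = S' := by
    have h5 : ((X - 1 : F[X])) ^ r * S.map j = (X - 1) ^ r * S' := by
      rw [← h1, hS, Polynomial.map_mul, Polynomial.map_pow, Polynomial.map_sub, map_X,
        Polynomial.map_one]
    have h6 : ((X - 1 : F[X])) ^ r ≠ 0 := by
      have h4 : (X - 1 : F[X]) = X - C 1 := by rw [map_one]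
      rw [h4]
      exact pow_ne_zero _ (X_sub_C_ne_zero 1)
    exact mul_left_cancel₀ h6 h5
  refine ⟨S, hS, ?_, fun m hm => ?_⟩
  · rw [← hSS] at h2
    exact (separable_map j).1 h2
  · rw [← isCoprime_map j]
    rw [Polynomial.map_sub, Polynomial.map_pow, map_X, Polynomial.map_one, hSS]
    exact h3 m hm

end shape

section near

variable {p : ℕ} [Fact p.Prime] {m : Type} [Fintype m] [DecidableEq m]

/-- **Matrices near a regular one.** -/
theorem near_shape (M : Matrix m m ℚ_[p]) {r : ℕ} (hM : Shape r M.charpoly) :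
    ∃ ε > 0, ∃ C : ℝ, 0 < C ∧ ∀ A : Matrix m m ℚ_[p], (∀ i j, ‖A i j - M i j‖ < ε) →
      X ^ r ∣ A.charpoly → Shape r A.charpoly ∧
        ∀ b : PadicAlgCl p, aeval b A.charpoly = 0 → ‖b‖ < C := by
  classical
  obtain ⟨S, hS, hsep, hS0⟩ := hM
  obtain ⟨δ, hδ, hδsep⟩ := exists_sep M
  have hMne : M.charpoly ≠ 0 := M.charpoly_monic.ne_zero
  have hSne : S ≠ 0 := by
    rintro rfl
    exact hS0 eval_zero
  have hSdeg : r + S.natDegree = Fintype.card m := by
    rw [← Matrix.charpoly_natDegree_eq_dim M, hS, natDegree_mul (pow_ne_zero _ X_ne_zero) hSne,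
      natDegree_X_pow]
  let R : Finset (PadicAlgCl p) := (S.aroots (PadicAlgCl p)).toFinset
  have hR : ∀ a : PadicAlgCl p, a ∈ R ↔ aeval a S = 0 := fun a => by
    rw [Multiset.mem_toFinset, mem_aroots]
    exact ⟨fun h => h.2, fun h => ⟨hSne, h⟩⟩
  have hRM : ∀ a ∈ R, aeval a M.charpoly = 0 := fun a ha => by
    rw [hS, map_mul, (hR a).1 ha, mul_zero]
  have hR0 : ∀ a ∈ R, a ≠ 0 := by
    rintro a ha rfl
    have h1 := (hR 0).1 ha
    have h2 : aeval (algebraMap ℚ_[p] (PadicAlgCl p) 0) S = 0 := by rw [map_zero]; exact h1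
    rw [aeval_algebraMap_apply, map_eq_zero] at h2
    exact hS0 (by rwa [coe_aeval_eq_eval] at h2)
  have hRcard : R.card = S.natDegree := by
    have h1 : (S.aroots (PadicAlgCl p)).Nodup := by
      rw [aroots_def]
      exact nodup_roots hsep.map
    rw [Multiset.toFinset_card_of_nodup h1, aroots_def,
      ← (IsAlgClosed.splits _).natDegree_eq_card_roots, natDegree_map]
  -- the radius
  obtain ⟨δ', hδ', hδ'le, hδ'R⟩ : ∃ δ' > 0, δ' ≤ δ ∧ ∀ a ∈ R, δ' ≤ ‖a‖ := by
    rcases R.eq_empty_or_nonempty with hRe | hRe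
    · exact ⟨δ, hδ, le_rfl, fun a ha => by rw [hRe] at ha; exact absurd ha (Finset.notMem_empty _)⟩
    · obtain ⟨q, hq, hmin⟩ := R.exists_min_image (fun a => ‖a‖) hRe
      exact ⟨min δ ‖q‖, lt_min hδ (norm_pos_iff.2 (hR0 q hq)), min_le_left _ _,
        fun a ha => (min_le_right _ _).trans (hmin a ha)⟩
  have h1 : ∀ a ∈ R, ∃ ε > 0, ∀ A : Matrix m m ℚ_[p], (∀ i j, ‖A i j - M i j‖ < ε) →
      ‖(aeval a A.charpoly : PadicAlgCl p)‖ < δ' ^ Fintype.card m := fun a ha =>
    near_det M a (hRM a ha) (pow_pos hδ' _)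
  choose! ε hε hA using h1
  obtain ⟨ε₀, hε₀, hmin⟩ : ∃ ε₀ > 0, ∀ a ∈ R, ε₀ ≤ ε a := by
    rcases R.eq_empty_or_nonempty with hRe | hRe
    · exact ⟨1, one_pos, fun a ha => by rw [hRe] at ha; exact absurd ha (Finset.notMem_empty _)⟩
    · obtain ⟨q, hq, hmin⟩ := R.exists_min_image ε hRe
      exact ⟨ε q, hε q hq, hmin⟩
  obtain ⟨C, hC⟩ : ∃ C : ℝ, ∀ a ∈ R, ‖a‖ ≤ C := by
    refine ⟨∑ a ∈ R, ‖a‖, fun a ha => ?_⟩
    exact Finset.single_le_sum (f := fun a : PadicAlgCl p => ‖a‖) (fun _ _ => norm_nonneg _) ha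
  refine ⟨ε₀, hε₀, max C 0 + δ' + 1, by positivity, fun A hAX hdvd => ?_⟩
  have h2 : ∀ a ∈ R, ∃ b : PadicAlgCl p, aeval b A.charpoly = 0 ∧ ‖a - b‖ < δ' := fun a ha =>
    exists_near_root A a hδ' (hA a ha A fun i j => (hAX i j).trans_le (hmin a ha))
  choose! e he hed using h2
  have hinj : ∀ a ∈ R, ∀ b ∈ R, e a = e b → a = b := by
    intro a ha b hb hab
    refine hδsep a b (hRM a ha) (hRM b hb) ?_
    have h3 : a - b = (a - e a) - (b - e b) := by rw [hab]; ring
    rw [h3]
    exact (ultra _ _ (hed a ha) (hed b hb)).trans_le hδ'le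
  have he0 : ∀ a ∈ R, e a ≠ 0 := by
    intro a ha h0
    have h3 := hed a ha
    rw [h0, sub_zero] at h3
    exact absurd h3 (not_lt.2 (hδ'R a ha))
  obtain ⟨T, hT⟩ := hdvd
  have hAne : A.charpoly ≠ 0 := A.charpoly_monic.ne_zero
  have hTne : T ≠ 0 := by
    rintro rfl
    rw [mul_zero] at hT
    exact hAne hT
  have hTdeg : T.natDegree = S.natDegree := by
    have h3 : r + T.natDegree = Fintype.card m := by
      rw [← Matrix.charpoly_natDegree_eq_dim A, hT, natDegree_mul (pow_ne_zero _ X_ne_zero) hTne,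
        natDegree_X_pow]
    omega
  let U : Finset (PadicAlgCl p) := (T.aroots (PadicAlgCl p)).toFinset
  have hU : ∀ a : PadicAlgCl p, a ∈ U ↔ aeval a T = 0 := fun a => by
    rw [Multiset.mem_toFinset, mem_aroots]
    exact ⟨fun h => h.2, fun h => ⟨hTne, h⟩⟩
  have hsub : R.image e ⊆ U := by
    intro x hx
    obtain ⟨a, ha, rfl⟩ := Finset.mem_image.1 hx
    have h3 := he a ha
    rw [hT, map_mul, map_pow, aeval_X] at h3
    exact (hU _).2 ((mul_eq_zero.1 h3).resolve_left (pow_ne_zero _ (he0 a ha)))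
  have hic : (R.image e).card = T.natDegree := by
    rw [Finset.card_image_of_injOn fun a ha b hb hab => hinj a ha b hb hab, hRcard, hTdeg]
  have hacard : (T.aroots (PadicAlgCl p)).card = T.natDegree := by
    rw [aroots_def, ← (IsAlgClosed.splits _).natDegree_eq_card_roots, natDegree_map]
  have hUcard : U.card ≤ T.natDegree := by
    rw [← hacard]
    exact Multiset.toFinset_card_le _
  have hUe : R.image e = U := Finset.eq_of_subset_of_card_le hsub (by rw [hic]; exact hUcard)
  have hTsep : T.Separable := by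
    have h3 : U.card = (T.aroots (PadicAlgCl p)).card := by rw [← hUe, hic, hacard]
    have h4 : (T.aroots (PadicAlgCl p)).Nodup := Multiset.toFinset_card_eq_card_iff_nodup.1 h3
    rw [aroots_def] at h4
    have h5 : T.map (algebraMap ℚ_[p] (PadicAlgCl p)) ≠ 0 :=
      (Polynomial.map_ne_zero_iff (algebraMap ℚ_[p] (PadicAlgCl p)).injective).2 hTne
    exact (separable_map _).1 ((nodup_roots_iff_of_splits h5 (IsAlgClosed.splits _)).1 h4)
  refine ⟨⟨T, hT, hTsep, fun h0 => ?_⟩, fun b hb => ?_⟩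
  · have h3 : (0 : PadicAlgCl p) ∈ U := by
      rw [hU]
      have h4 : aeval (algebraMap ℚ_[p] (PadicAlgCl p) 0) T = 0 := by
        rw [aeval_algebraMap_apply, coe_aeval_eq_eval, h0, map_zero]
      rwa [map_zero] at h4
    rw [← hUe] at h3
    obtain ⟨a, ha, ha0⟩ := Finset.mem_image.1 h3
    exact he0 a ha ha0
  · rw [hT, map_mul, map_pow, aeval_X] at hb
    have hCpos : 0 < max C 0 + δ' + 1 := by positivity
    rcases mul_eq_zero.1 hb with h3 | h3
    · have h4 : b = 0 := eq_zero_of_pow_eq_zero h3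
      rw [h4, norm_zero]
      exact hCpos
    · have h4 := (hU b).2 h3
      rw [← hUe] at h4
      obtain ⟨a, ha, rfl⟩ := Finset.mem_image.1 h4
      have h5 : e a = a - (a - e a) := by ring
      have h6 : ‖e a‖ ≤ ‖a‖ + ‖a - e a‖ := by
        conv_lhs => rw [h5]
        exact norm_sub_le _ _
      have h7 := hC a ha
      have h8 := hed a ha
      have h9 : C ≤ max C 0 := le_max_left _ _
      linarith

/-- The characteristic polynomial of `1 + t A`. -/
theorem charpoly_one_add (A : Matrix m m ℚ_[p]) {t : ℚ_[p]} (ht : t ≠ 0) :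
    (1 + t • A).charpoly = C (t ^ Fintype.card m) * A.charpoly.comp (C t⁻¹ * (X - 1)) := by
  have : Infinite ℚ_[p] := inferInstance
  refine Polynomial.funext fun x => ?_
  rw [Matrix.eval_charpoly, eval_mul, eval_C, eval_comp, Matrix.eval_charpoly, ← Matrix.det_smul]
  congr 1
  have h1 : eval x (C t⁻¹ * (X - 1)) = t⁻¹ * (x - 1) := by simp
  rw [h1]
  ext i j
  by_cases hij : i = j
  · subst hij
    simp only [Matrix.sub_apply, Matrix.scalar_apply, Matrix.diagonal_apply_eq, Matrix.add_apply,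
      Matrix.one_apply_eq, Matrix.smul_apply, smul_eq_mul]
    field_simp
    ring
  · simp only [Matrix.sub_apply, Matrix.scalar_apply, Matrix.diagonal_apply_ne _ hij,
      Matrix.add_apply, Matrix.one_apply_ne hij, Matrix.smul_apply, smul_eq_mul]
    ring

theorem shapeOne_of (A : Matrix m m ℚ_[p]) {r : ℕ} (hA : Shape r A.charpoly) {B : ℝ}
    (hB : ∀ b : PadicAlgCl p, aeval b A.charpoly = 0 → ‖b‖ < B) {t : ℚ_[p]} (ht : t ≠ 0)
    (htB : ‖t‖ * B < (p : ℝ)⁻¹) : ShapeOne r (1 + t • A).charpoly := by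
  obtain ⟨S, hS, hsep, hS0⟩ := hA
  set q : ℚ_[p][X] := C t⁻¹ * (X - 1) with hq
  have hcard : r ≤ Fintype.card m := by
    have hSne : S ≠ 0 := by
      rintro rfl
      exact hS0 eval_zero
    rw [← Matrix.charpoly_natDegree_eq_dim A, hS, natDegree_mul (pow_ne_zero _ X_ne_zero) hSne,
      natDegree_X_pow]
    exact Nat.le_add_right _ _
  have hc : t ^ Fintype.card m * t⁻¹ ^ r ≠ 0 :=
    mul_ne_zero (pow_ne_zero _ ht) (pow_ne_zero _ (inv_ne_zero ht))
  refine ⟨C (t ^ Fintype.card m * t⁻¹ ^ r) * S.comp q, ?_, ?_, fun k hk => ?_⟩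
  · rw [charpoly_one_add A ht, hS, mul_comp, pow_comp, X_comp, ← hq, C_mul, C_pow (a := t⁻¹), hq,
      mul_pow]
    ring
  · have h1 : (S.comp q).Separable := by
      have h2 := hsep
      rw [separable_def] at h2 ⊢
      obtain ⟨a, b, hab⟩ := h2
      refine ⟨a.comp q, C t * b.comp q, ?_⟩
      have h3 : derivative (S.comp q) = C t⁻¹ * (derivative S).comp q := by
        rw [derivative_comp, hq]
        simp
      have h4 : (C t : ℚ_[p][X]) * C t⁻¹ = 1 := by
        rw [← C_mul, mul_inv_cancel₀ ht, C_1]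
      calc a.comp q * S.comp q + C t * b.comp q * derivative (S.comp q)
          = a.comp q * S.comp q + (C t * C t⁻¹) * (b.comp q * (derivative S).comp q) := by
            rw [h3]; ring
        _ = (a * S + b * derivative S).comp q := by
            rw [h4, one_mul, add_comp, mul_comp, mul_comp]
        _ = 1 := by rw [hab, one_comp]
    have h2 : IsUnit (C (t ^ Fintype.card m * t⁻¹ ^ r) : ℚ_[p][X]) := isUnit_C.2 hc.isUnit
    exact Separable.unit_mul h2 h1
  · refine (isCoprime_iff_aeval_ne_zero_of_isAlgClosed ℚ_[p] (PadicAlgCl p) _ _).2 fun z => ?_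
    by_contra hcon
    push Not at hcon
    obtain ⟨h1, h2⟩ := hcon
    have h3 : z ^ k = 1 := by
      rw [map_sub, map_pow, aeval_X, map_one] at h2
      exact sub_eq_zero.1 h2
    set b : PadicAlgCl p := algebraMap ℚ_[p] (PadicAlgCl p) t⁻¹ * (z - 1) with hb
    have h4 : aeval b S = 0 := by
      rw [map_mul, aeval_C, aeval_comp] at h1
      have h5 : aeval z q = b := by rw [hq, map_mul, aeval_C, map_sub, aeval_X, map_one]
      rw [h5] at h1
      exact (mul_eq_zero.1 h1).resolve_left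
        ((_root_.map_ne_zero (algebraMap ℚ_[p] (PadicAlgCl p))).2 hc)
    have h5 : aeval b A.charpoly = 0 := by rw [hS, map_mul, h4, mul_zero]
    have h6 := hB b h5
    have h7 : z - 1 = algebraMap ℚ_[p] (PadicAlgCl p) t * b := by
      rw [hb, ← mul_assoc, ← map_mul, mul_inv_cancel₀ ht, map_one, one_mul]
    have h8 : ‖z - 1‖ < (p : ℝ)⁻¹ := by
      rw [h7, norm_mul]
      have h9 : ‖(algebraMap ℚ_[p] (PadicAlgCl p) t : PadicAlgCl p)‖ = ‖t‖ :=
        PadicAlgCl.norm_extends p t
      rw [h9]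
      exact (mul_lt_mul_of_pos_left h6 (norm_pos_iff.2 ht)).trans htB
    have h9 : z = 1 := eq_one_of_pow h8 hk h3
    rw [h9, sub_self, mul_zero] at hb
    rw [hb] at h4
    have h10 : aeval (algebraMap ℚ_[p] (PadicAlgCl p) 0) S = 0 := by rw [map_zero]; exact h4
    rw [aeval_algebraMap_apply, map_eq_zero, coe_aeval_eq_eval] at h10
    exact hS0 h10

end near

end Pool.Agent.H853.RG
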