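import Pool.Agent.H853.RG.Fro
import Pool.Agent.H853.RG.Adj
import Pool.Agent.H853.CC.Dens

/-!
# Semisimplicity from the Mumford-Tate conjecture at one prime: definitions
-/

set_option autoImplicit false

namespace Pool.Agent.H853.RG

open Module Polynomial Pool.Agent.Y114.TF Pool.Agent.Y114.RM Pool.Agent.NH34.BD
  Pool.Agent.H853.SR

section general

variable {k : Type} [Field k] {V : Type} [AddCommGroup V] [Module k V] {Γ : Type} [Group Γ]
  (ρ : Representation k Γ V)

/-- `X` commutes with all Tate endomorphisms: with all endomorphisms of `V` which commute with a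
subgroup of finite index of `Γ`. -/
def CommutesWithTate (X : End k V) : Prop :=
  ∀ Y : End k V, (∃ Δ : Subgroup Γ, Δ.FiniteIndex ∧ ∀ γ ∈ Δ, Y * ρ γ = ρ γ * Y) → X * Y = Y * X

/-- `X` kills all Tate tensors. -/
def KillsAll (X : End k V) : Prop :=
  ∀ (m : ℕ) (φ : Tensor k V m), TateTensor ρ φ → KillsTensor X φ

/-- All elements of `𝔤` commute with all Tate endomorphisms. -/
def AllCommute (𝔤 : Submodule k (End k V)) : Prop := ∀ X ∈ 𝔤, CommutesWithTate ρ X

/-- The elements of the centre of `𝔤` kill all Tate tensors. -/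
def CentreKillsAll (𝔤 : Submodule k (End k V)) : Prop :=
  ∀ Z ∈ 𝔤, (∀ Y ∈ 𝔤, Z * Y = Y * Z) → KillsAll ρ Z

end general

section defs

variable {Γ : Type} [Group Γ] {ι : Type} {n : ι → ℕ}

section one

variable {ℓ : ℕ} [Fact ℓ.Prime] (ρ : Reps Γ n ℓ) (𝔤 : EndSpace n ℓ)

/-- The Tate conjecture for endomorphisms: `𝔤` commutes with all Tate endomorphisms. -/
def TateForEndomorphisms : Prop := AllCommute (sumRep ρ) 𝔤

/-- The centre of `𝔤` kills the Tate tensors. -/
def CentreKillsTateTensors : Prop := CentreKillsAll (sumRep ρ) 𝔤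

/-- `γ` is strongly regular for `𝔤`: it normalizes `𝔤`; the elements of `𝔤 ⊗ ℂ` in the generalized
eigenspace for the eigenvalue `1` of the conjugation by `γ` commute with each other; the other
eigenvalues are simple, and they are not roots of unity (see `H853.SR.StronglyRegular`).  Here `ℂ` is
an extension of `ℚ_ℓ` by the choice of an embedding. -/
def IsStronglyRegular (γ : Γ) : Prop :=
  ∃ j : ℚ_[ℓ] →+* ℂ, letI := j.toAlgebra; StronglyRegular (sumRep ρ) 𝔤 γ

/-- The Tate tensors are those killed by `𝔤` if and only if the Tate endomorphisms commute with `𝔤` and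
the Tate tensors are killed by the centre of `𝔤`. -/
def EndomorphismsAndCentreDecide : Prop :=
  TateTensorsOf ρ 𝔤 ↔ TateForEndomorphisms ρ 𝔤 ∧ CentreKillsTateTensors ρ 𝔤

/-- The representation is semisimple, and the Tate tensors are those killed by `𝔤` if and only if the
Tate endomorphisms commute with `𝔤` and the Tate tensors are killed by the centre of `𝔤`. -/
def Good : Prop := Semisimple ρ ∧ EndomorphismsAndCentreDecide ρ 𝔤

/-- The Mumford-Tate conjecture at `ℓ` for the Lie algebras: all elements of `𝔤` are tangent vectors of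
the image of `Γ`. -/
def LieMumfordTate [DecidableEq ι] : Prop := Pool.Agent.H853.OP.TangentFor (K := ℚ_[ℓ]) ρ 𝔤

end one

end defs

end Pool.Agent.H853.RG
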